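import Pool.Agent.L7h48.SG.Stm

/-!
# Project SG, job G1: the cyclotomic character
-/

set_option autoImplicit false

namespace Pool.Agent.L7h79.SG

open Pool.Agent.L7h48.SG
open Pool.Agent.Y715.Gi (QB KK GK)
open Pool.Agent.Y715.Nr Pool.Agent.W237.RK
open Pool.Agent.Z384 (II DD DDs)

variable {p : ℕ} [hp : Fact p.Prime]

instance neZero_pow (m : ℕ) : NeZero (p ^ m) := ⟨pow_ne_zero _ hp.out.ne_zero⟩

lemma exists_prim (p : ℕ) [hp : Fact p.Prime] (m : ℕ) : ∃ ζ : QB, IsPrimitiveRoot ζ (p ^ m) := by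
  haveI : NeZero ((p ^ m : ℕ) : QB) := ⟨by
    exact_mod_cast pow_ne_zero m hp.out.ne_zero⟩
  exact HasEnoughRootsOfUnity.exists_primitiveRoot QB (p ^ m)

lemma stab_open {s : QB} (σ : GK s) (x : QB) : IsOpen {τ : GK s | τ x = σ x} := by
  have h := (stabilizer_isOpen_of_isIntegral (K := KK s) (L := QB) x)
  have h2 : {τ : GK s | τ x = σ x} = (fun τ : GK s => σ⁻¹ * τ) ⁻¹'
      (MulAction.stabilizer (GK s) x : Set (GK s)) := by
    ext τ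
    simp only [Set.mem_ofPred_eq, Set.mem_preimage, SetLike.mem_coe, MulAction.mem_stabilizer_iff,
      AlgEquiv.smul_def, AlgEquiv.mul_apply]
    constructor
    · intro h
      rw [h]
      exact σ.symm_apply_apply x
    · intro h
      have h3 := congrArg σ h
      rw [show σ (σ⁻¹ (τ x)) = τ x from σ.apply_symm_apply _] at h3
      exact h3
  rw [h2]
  exact h.preimage (continuous_const.mul continuous_id)

lemma pow_cast {m : ℕ} {ζ : QB} (hζ : ζ ^ p ^ m = 1) (k : ℕ) :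
    ζ ^ ((k : ZMod (p ^ m))).val = ζ ^ k := by
  rw [ZMod.val_natCast, ← pow_eq_pow_mod k hζ]

omit hp in
lemma pow_add_val {m : ℕ} [NeZero (p ^ m)] {ζ : QB} (hζ : ζ ^ p ^ m = 1) (a b : ZMod (p ^ m)) :
    ζ ^ (a + b).val = ζ ^ (a.val + b.val) := by
  rw [ZMod.val_add, ← pow_eq_pow_mod _ hζ]

omit hp in
lemma pow_mul_val {m : ℕ} [NeZero (p ^ m)] {ζ : QB} (hζ : ζ ^ p ^ m = 1) (a b : ZMod (p ^ m)) :
    ζ ^ (a * b).val = ζ ^ (a.val * b.val) := by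
  rw [ZMod.val_mul, ← pow_eq_pow_mod _ hζ]

lemma val_inj {m : ℕ} {ζ : QB} (hζ : IsPrimitiveRoot ζ (p ^ m)) {a b : ZMod (p ^ m)}
    (h : ζ ^ a.val = ζ ^ b.val) : a = b :=
  ZMod.val_injective _ (hζ.pow_inj (ZMod.val_lt a) (ZMod.val_lt b) h)

lemma pow_one_val {m : ℕ} {ζ : QB} (hζ : ζ ^ p ^ m = 1) : ζ ^ (1 : ZMod (p ^ m)).val = ζ := by
  have h2 := pow_cast hζ 1
  rw [pow_one] at h2
  simpa using h2

lemma cyc_eq {s : QB} {χ : GK s → ℤ_[p]} (hχ : IsCyc p χ) {m : ℕ} {ζ : QB}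
    (hζ : IsPrimitiveRoot ζ (p ^ m)) {σ : GK s} {a : ZMod (p ^ m)} (h : σ ζ = ζ ^ a.val) :
    PadicInt.toZModPow m (χ σ) = a := by
  refine val_inj hζ ?_
  rw [← hχ σ m ζ hζ.pow_eq_one, h]

lemma dist_le {x y : ℤ_[p]} {m : ℕ} (h : PadicInt.toZModPow m x = PadicInt.toZModPow m y) :
    dist x y ≤ (p : ℝ) ^ (-(m : ℤ)) := by
  have h1 : x - y ∈ RingHom.ker (PadicInt.toZModPow (p := p) m) := by
    rw [RingHom.mem_ker, map_sub, h, sub_self]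
  rw [PadicInt.ker_toZModPow] at h1
  rw [dist_eq_norm]
  exact (PadicInt.norm_le_pow_iff_mem_span_pow (x - y) m).2 h1

/-- a function to `ℤ_p` whose reductions are locally constant is continuous -/
lemma cont_of {X : Type*} [TopologicalSpace X] (f : X → ℤ_[p])
    (h : ∀ m : ℕ, ∀ x : X, ∀ᶠ y in nhds x, PadicInt.toZModPow m (f y) = PadicInt.toZModPow m (f x)) :
    Continuous f := by
  rw [continuous_iff_continuousAt]
  intro x
  rw [ContinuousAt, Metric.tendsto_nhds]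
  intro ε hε
  have hp1 : (1 : ℝ) < p := by exact_mod_cast hp.out.one_lt
  obtain ⟨m, hm⟩ := exists_pow_lt_of_lt_one hε
    (show (1 / p : ℝ) < 1 by rw [div_lt_one (by linarith)]; exact hp1)
  filter_upwards [h m x] with y hy
  refine lt_of_le_of_lt (dist_le hy) ?_
  have e : (p : ℝ) ^ (-(m : ℤ)) = (1 / p : ℝ) ^ m := by
    rw [zpow_neg, zpow_natCast, one_div, inv_pow]
  rw [e]
  exact hm

omit hp in
lemma pUnit_one : PUnit p 1 := by
  refine ⟨one_ne_zero, 0, ?_, ?_⟩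
  · simpa using isIntegral_one (R := ℤ) (B := QB)
  · simpa using isIntegral_one (R := ℤ) (B := QB)

lemma mem_ker_iff {s : QB} {m : ℕ} {ζ : QB} (hζ : IsPrimitiveRoot ζ (p ^ m)) (σ : GK s) :
    σ ∈ (hζ.autToPow (KK s)).ker ↔ σ ζ = ζ := by
  rw [MonoidHom.mem_ker]
  constructor
  · intro h
    have h1 := hζ.autToPow_spec (KK s) σ
    rw [h] at h1
    rw [← h1]
    exact pow_one_val hζ.pow_eq_one
  · intro h
    have h1 := hζ.autToPow_spec (KK s) σ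
    apply Units.ext
    refine val_inj hζ ?_
    rw [h1, h]
    exact (pow_one_val hζ.pow_eq_one).symm

/-- automorphisms which fix the `p`-th roots of unity act on the others through a `p`-group -/
lemma auto_pow {s : QB} {m : ℕ} {ζ : QB} (hζ : IsPrimitiveRoot ζ (p ^ m)) {σ : GK s}
    (h : ∀ ζ' : QB, ζ' ^ p = 1 → σ ζ' = ζ') : hζ.autToPow (KK s) σ ^ p ^ m = 1 := by
  obtain ⟨a, ha⟩ : ∃ a : (ZMod (p ^ m))ˣ, a = hζ.autToPow (KK s) σ := ⟨_, rfl⟩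
  have h1 := hζ.autToPow_spec (KK s) σ
  rw [← ha] at h1 ⊢
  apply Units.ext
  rw [Units.val_pow_eq_pow_val, Units.val_one]
  rcases m with _ | m
  · haveI : Subsingleton (ZMod (p ^ 0)) := by
      rw [pow_zero]; infer_instance
    exact Subsingleton.elim _ _
  have h2 : IsPrimitiveRoot (ζ ^ p ^ m) p := by
    refine hζ.pow (neZero_pow (p := p) (m + 1)).pos ?_
    rw [pow_succ]
  have h3 := h (ζ ^ p ^ m) h2.pow_eq_one
  rw [map_pow, ← h1, ← pow_mul, mul_comm, pow_mul] at h3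
  nth_rewrite 2 [← pow_one (ζ ^ p ^ m)] at h3
  have h4 : (a : ZMod (p ^ (m + 1))).val ≡ 1 [MOD p] := by
    have h5 : (ζ ^ p ^ m) ^ ((a : ZMod (p ^ (m + 1))).val % p) = (ζ ^ p ^ m) ^ 1 := by
      rw [← h3]
      exact (pow_eq_pow_mod _ h2.pow_eq_one).symm
    have h6 := h2.pow_inj (Nat.mod_lt _ hp.out.pos) hp.out.one_lt h5
    rw [Nat.ModEq, h6, Nat.mod_eq_of_lt hp.out.one_lt]
  have h5 : ((p : ℕ) : ZMod (p ^ (m + 1))) ∣ (a : ZMod (p ^ (m + 1))) - 1 := by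
    have h6 : ((a : ZMod (p ^ (m + 1))).val : ℤ) ≡ 1 [ZMOD p] := by exact_mod_cast h4
    obtain ⟨c, hc⟩ := h6.symm.dvd
    refine ⟨(c : ZMod (p ^ (m + 1))), ?_⟩
    have h7 := congrArg (fun z : ℤ => (z : ZMod (p ^ (m + 1)))) hc
    push_cast at h7
    rw [ZMod.natCast_val, ZMod.cast_id] at h7
    exact h7
  have h6 := dvd_sub_pow_of_dvd_sub h5 (m + 1)
  have h7 : ((p : ℕ) : ZMod (p ^ (m + 1))) ^ (m + 1 + 1) = 0 := by
    rw [pow_succ ((p : ℕ) : ZMod (p ^ (m + 1))) (m + 1), ← Nat.cast_pow, ZMod.natCast_self, zero_mul]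
  rw [h7, zero_dvd_iff, one_pow, sub_eq_zero] at h6
  exact h6

lemma te_stab (hD : S_D3) {s : QB} {ι₀ : QB →ₐ[ℚ] PadicAlgCl p} {𝓛 : Subgroup (GK s)}
    (hL : Lev p 𝓛 ι₀) {m : ℕ} {ζ : QB} (hζ : IsPrimitiveRoot ζ (p ^ m)) :
    TE p 𝓛 (𝓛 ⊓ (hζ.autToPow (KK s)).ker) := by
  haveI := hL.normal
  constructor
  · have h := stab_open (1 : GK s) ζ
    have h2 : ((𝓛 ⊓ (hζ.autToPow (KK s)).ker : Subgroup (GK s)) : Set (GK s))
        = (𝓛 : Set (GK s)) ∩ {τ : GK s | τ ζ = (1 : GK s) ζ} := by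
      ext σ
      rw [Subgroup.coe_inf, Set.mem_inter_iff, Set.mem_inter_iff, SetLike.mem_coe, SetLike.mem_coe,
        mem_ker_iff, Set.mem_ofPred_eq, AlgEquiv.one_apply]
    rw [h2]
    exact hL.isOpen.inter h
  · infer_instance
  · exact inf_le_left
  · rw [Subgroup.inf_relIndex_left]
    obtain ⟨f, hf⟩ : ∃ f : 𝓛 →* (ZMod (p ^ m))ˣ, f = (hζ.autToPow (KK s)).comp 𝓛.subtype :=
      ⟨_, rfl⟩
    have h1 : (hζ.autToPow (KK s)).ker.subgroupOf 𝓛 = f.ker := by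
      ext x
      rw [Subgroup.mem_subgroupOf, MonoidHom.mem_ker, MonoidHom.mem_ker, hf]
      rfl
    have h2 : (hζ.autToPow (KK s)).ker.relIndex 𝓛 = Nat.card f.range := by
      rw [Subgroup.relIndex, h1, Subgroup.index_ker]
    rw [h2]
    have h3 : IsPGroup p f.range := by
      rintro ⟨x, y, rfl⟩
      refine ⟨m, ?_⟩
      apply Subtype.ext
      rw [Subgroup.coe_pow, Subgroup.coe_one]
      rw [hf]
      exact auto_pow hζ (fun ζ' hζ' => hL.mu _ y.2 ζ' hζ')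
    exact IsPGroup.iff_card.1 h3
  · intro σ hσ
    rw [Subgroup.mem_inf, mem_ker_iff]
    refine ⟨hL.unr σ hσ, ?_⟩
    obtain ⟨q, hq, ι, hqp, hσ'⟩ := hσ
    refine hD p s q ι hqp σ hσ' ζ m ?_ ?_
    · rw [hζ.pow_eq_one]
      exact pUnit_one
    · rw [hζ.pow_eq_one, map_one]

lemma nf_fix (hD : S_D3) {s : QB} {ι₀ : QB →ₐ[ℚ] PadicAlgCl p} {𝓛 : Subgroup (GK s)}
    (hL : Lev p 𝓛 ι₀) {m : ℕ} {ζ : QB} (hζ : IsPrimitiveRoot ζ (p ^ m)) {τ : GK s}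
    (hτ : τ ∈ Nf p 𝓛) : τ ζ = ζ := by
  rw [Nf, Subgroup.mem_sInf] at hτ
  have h := hτ _ (te_stab hD hL hζ)
  exact (mem_ker_iff hζ τ).1 (Subgroup.mem_inf.1 h).2

lemma cyc_mul {s : QB} {χ : GK s → ℤ_[p]} (hχ : IsCyc p χ) (σ τ : GK s) :
    χ (σ * τ) = χ σ * χ τ := by
  refine PadicInt.ext_of_toZModPow.1 fun m => ?_
  obtain ⟨ζ, hζ⟩ := exists_prim p m
  refine cyc_eq hχ hζ ?_
  rw [map_mul, pow_mul_val hζ.pow_eq_one, AlgEquiv.mul_apply, hχ τ m ζ hζ.pow_eq_one, map_pow,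
    hχ σ m ζ hζ.pow_eq_one, ← pow_mul]

lemma cyc_one_of {s : QB} {χ : GK s → ℤ_[p]} (hχ : IsCyc p χ) {τ : GK s}
    (h : ∀ (m : ℕ) (ζ : QB), IsPrimitiveRoot ζ (p ^ m) → τ ζ = ζ) : χ τ = 1 := by
  refine PadicInt.ext_of_toZModPow.1 fun m => ?_
  obtain ⟨ζ, hζ⟩ := exists_prim p m
  refine cyc_eq hχ hζ ?_
  rw [h m ζ hζ, map_one]
  exact (pow_one_val hζ.pow_eq_one).symm

lemma toZMod_eq_of {a b : ℤ_[p]} (h : PadicInt.toZModPow 1 a = PadicInt.toZModPow 1 b) :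
    PadicInt.toZMod a = PadicInt.toZMod b := by
  rw [← sub_eq_zero, ← map_sub] at h ⊢
  rw [← RingHom.mem_ker] at h ⊢
  rw [PadicInt.ker_toZMod]
  rwa [PadicInt.ker_toZModPow, pow_one, ← PadicInt.maximalIdeal_eq_span_p] at h

lemma toZModPow_eq_of {a b : ℤ_[p]} (h : PadicInt.toZMod a = PadicInt.toZMod b) :
    PadicInt.toZModPow 1 a = PadicInt.toZModPow 1 b := by
  rw [← sub_eq_zero, ← map_sub] at h ⊢
  rw [← RingHom.mem_ker] at h ⊢
  rw [PadicInt.ker_toZMod] at h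
  rwa [PadicInt.ker_toZModPow, pow_one, ← PadicInt.maximalIdeal_eq_span_p]

theorem s_G1 (hD : S_D3) : S_G1 := by
  intro p _ s χ hχ
  refine ⟨⟨?_, ?_, cyc_mul hχ⟩, ?_⟩
  · refine cont_of χ fun m σ => ?_
    obtain ⟨ζ, hζ⟩ := exists_prim p m
    filter_upwards [(stab_open σ ζ).mem_nhds rfl] with τ hτ
    have hτ' : τ ζ = σ ζ := hτ
    exact cyc_eq hχ hζ (by rw [hτ', ← hχ σ m ζ hζ.pow_eq_one])
  · exact cyc_one_of hχ fun m ζ _ => rfl
  · intro ι₀ 𝓛 hL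
    refine ⟨fun σ hσ => ?_, fun τ hτ => cyc_one_of hχ fun m ζ hζ => nf_fix hD hL hζ hτ⟩
    obtain ⟨ζ, hζ⟩ := exists_prim p 1
    have h1 : PadicInt.toZModPow 1 (χ σ) = 1 := by
      refine cyc_eq hχ hζ ?_
      rw [pow_one_val hζ.pow_eq_one]
      exact hL.mu σ hσ ζ (by have := hζ.pow_eq_one; rwa [pow_one] at this)
    have h2 : PadicInt.toZMod (χ σ) = PadicInt.toZMod 1 := toZMod_eq_of (by rw [h1, map_one])
    rw [h2, map_one]

end Pool.Agent.L7h79.SG
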