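import Pool.Agent.L7h48.SG.Stm

/-!
# Project SG, job D1: the `p`-units of a totally complex number field with two primes above `p`
-/

set_option autoImplicit false

namespace Pool.Agent.L7h79.SG

open NumberField IsDedekindDomain HeightOneSpectrum

variable {N : Type} [Field N] [NumberField N]

/-- the additive valuation -/
noncomputable def vz (v : HeightOneSpectrum (𝓞 N)) : Nˣ →* Multiplicative ℤ :=
  v.valuationOfNeZero

theorem vz_eq (v : HeightOneSpectrum (𝓞 N)) (x : Nˣ) :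
    ((vz v x : Multiplicative ℤ) : WithZero (Multiplicative ℤ)) = v.valuation N (x : N) :=
  v.valuationOfNeZero_eq x

/-- the elements which are units outside `v₁`, `v₂` -/
noncomputable def Wp (v₁ v₂ : HeightOneSpectrum (𝓞 N)) : Subgroup Nˣ where
  carrier := {x | ∀ v, v ≠ v₁ → v ≠ v₂ → vz v x = 1}
  one_mem' := fun v _ _ => map_one _
  mul_mem' := by
    intro a b ha hb v h1 h2
    rw [map_mul, ha v h1 h2, hb v h1 h2, one_mul]
  inv_mem' := by
    intro a ha v h1 h2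
    rw [map_inv, ha v h1 h2, inv_one]

theorem mem_Wp {v₁ v₂ : HeightOneSpectrum (𝓞 N)} {x : Nˣ} :
    x ∈ Wp v₁ v₂ ↔ ∀ v, v ≠ v₁ → v ≠ v₂ → vz v x = 1 := Iff.rfl

theorem isInt_of_le {x : N} (h : ∀ v : HeightOneSpectrum (𝓞 N), v.valuation N x ≤ 1) :
    IsIntegral ℤ x := by
  obtain ⟨y, rfl⟩ := HeightOneSpectrum.mem_integers_of_valuation_le_one (R := 𝓞 N) (K := N) x h
  exact y.2

/-- an element with trivial valuations is a unit -/
theorem exists_unit_of_vz {x : Nˣ} (h : ∀ v : HeightOneSpectrum (𝓞 N), vz v x = 1) :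
    ∃ u : (𝓞 N)ˣ, (u : N) = x := by
  have h1 : ∀ v : HeightOneSpectrum (𝓞 N), v.valuation N (x : N) = 1 := by
    intro v
    rw [← vz_eq, h v]; rfl
  have h2 : ∀ v : HeightOneSpectrum (𝓞 N), v.valuation N ((x⁻¹ : Nˣ) : N) = 1 := by
    intro v
    rw [← vz_eq, map_inv, h v, inv_one]; rfl
  have i1 := isInt_of_le (fun v => (h1 v).le)
  have i2 := isInt_of_le (fun v => (h2 v).le)
  refine ⟨⟨⟨x, i1⟩, ⟨((x⁻¹ : Nˣ) : N), i2⟩, ?_, ?_⟩, rfl⟩
  · exact RingOfIntegers.ext (by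
      change (x : N) * ((x⁻¹ : Nˣ) : N) = 1
      simp)
  · exact RingOfIntegers.ext (by
      change ((x⁻¹ : Nˣ) : N) * (x : N) = 1
      simp)

theorem vz_unit (v : HeightOneSpectrum (𝓞 N)) (u : (𝓞 N)ˣ) (x : Nˣ) (h : (u : N) = x) :
    vz v x = 1 := by
  have hu : x = Units.map (algebraMap (𝓞 N) N : 𝓞 N →* N) u := by
    ext; exact h.symm
  rw [hu]
  exact v.valuation_of_unit_eq u

/-- elements of `Wp` are `p`-units -/
theorem pUnit_of_mem {p : ℕ} (hp : p ≠ 0) {v₁ v₂ : HeightOneSpectrum (𝓞 N)}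
    (h1 : (p : 𝓞 N) ∈ v₁.asIdeal) (h2 : (p : 𝓞 N) ∈ v₂.asIdeal) {x : Nˣ} (hx : x ∈ Wp v₁ v₂) :
    ∃ k : ℕ, IsIntegral ℤ ((p : N) ^ k * (x : N)) := by
  have key : ∀ v : HeightOneSpectrum (𝓞 N), (p : 𝓞 N) ∈ v.asIdeal →
      ∃ k : ℕ, ∀ k', k ≤ k' → v.valuation N ((p : N) ^ k' * (x : N)) ≤ 1 := by
    intro v hv
    have hlt : v.valuation N (p : N) < 1 := by
      have := (HeightOneSpectrum.valuation_lt_one_iff_mem (K := N) v (p : 𝓞 N)).2 hv
      change v.valuation N (algebraMap (𝓞 N) N p) < 1 at this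
      rwa [map_natCast] at this
    have hle : v.valuation N (p : N) ≤ WithZero.exp (-1 : ℤ) := by
      have h0 : v.valuation N (p : N) ≠ 0 := by
        rw [Valuation.ne_zero_iff]; exact Nat.cast_ne_zero.2 hp
      rw [← WithZero.exp_log h0] at hlt ⊢
      rw [← WithZero.exp_zero, WithZero.exp_lt_exp] at hlt
      rw [WithZero.exp_le_exp]
      omega
    have hx0 : v.valuation N (x : N) ≠ 0 := by
      rw [Valuation.ne_zero_iff]; exact x.ne_zero
    refine ⟨(WithZero.log (v.valuation N (x : N))).toNat, fun k' hk' => ?_⟩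
    rw [map_mul, map_pow]
    calc v.valuation N (p : N) ^ k' * v.valuation N (x : N)
        ≤ WithZero.exp (-1 : ℤ) ^ k' * v.valuation N (x : N) := by
          gcongr
      _ = WithZero.exp (-(k' : ℤ)) * WithZero.exp (WithZero.log (v.valuation N (x : N))) := by
          rw [WithZero.exp_log hx0, ← WithZero.exp_nsmul]
          congr 2
          simp
      _ ≤ 1 := by
          rw [← WithZero.exp_add, ← WithZero.exp_zero, WithZero.exp_le_exp]
          have := Int.self_le_toNat (WithZero.log (v.valuation N (x : N)))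
          omega
  obtain ⟨k₁, hk₁⟩ := key v₁ h1
  obtain ⟨k₂, hk₂⟩ := key v₂ h2
  refine ⟨max k₁ k₂, isInt_of_le fun v => ?_⟩
  by_cases e1 : v = v₁
  · rw [e1]; exact hk₁ _ (le_max_left _ _)
  by_cases e2 : v = v₂
  · rw [e2]; exact hk₂ _ (le_max_right _ _)
  rw [map_mul, ← vz_eq v x, hx v e1 e2, map_pow]
  have h2le : v.valuation N (p : N) ≤ 1 := by
    have := HeightOneSpectrum.valuation_le_one (K := N) v (p : 𝓞 N)
    change v.valuation N (algebraMap (𝓞 N) N p) ≤ 1 at this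
    rwa [map_natCast] at this
  calc v.valuation N (p : N) ^ _ * _ ≤ 1 * 1 := by
        refine mul_le_mul' (pow_le_one₀ (by simp) h2le) le_rfl
    _ = 1 := one_mul 1

/-- a power of a prime ideal is principal -/
theorem exists_gen (v : HeightOneSpectrum (𝓞 N)) :
    ∃ w : Nˣ, vz v w ≠ 1 ∧ ∀ v', v' ≠ v → vz v' w = 1 := by
  classical
  have hI : v.asIdeal ∈ nonZeroDivisors (Ideal (𝓞 N)) := mem_nonZeroDivisors_of_ne_zero v.ne_bot
  obtain ⟨h, hpos, hh⟩ : ∃ h : ℕ, 0 < h ∧ (v.asIdeal ^ h).IsPrincipal := by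
    refine ⟨Fintype.card (ClassGroup (𝓞 N)), Fintype.card_pos, ?_⟩
    have h1 : ClassGroup.mk0 ((⟨v.asIdeal, hI⟩ : nonZeroDivisors (Ideal (𝓞 N))) ^
        Fintype.card (ClassGroup (𝓞 N))) = 1 := by
      rw [map_pow, pow_card_eq_one]
    rw [ClassGroup.mk0_eq_one_iff] at h1
    exact h1
  obtain ⟨g, hg⟩ := hh
  rw [Ideal.submodule_span_eq] at hg
  have hg0 : g ≠ 0 := by
    rintro rfl
    rw [Ideal.span_singleton_zero] at hg
    exact pow_ne_zero h v.ne_bot hg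
  have hgN : (g : N) ≠ 0 := by
    intro h0
    exact hg0 ((RingOfIntegers.coe_eq_zero_iff).1 h0)
  refine ⟨Units.mk0 (g : N) hgN, ?_, ?_⟩
  · intro h1
    have h2 := vz_eq v (Units.mk0 (g : N) hgN)
    rw [h1] at h2
    have h3 : v.valuation N (g : N) < 1 := by
      rw [HeightOneSpectrum.valuation_lt_one_iff_dvd, ← hg]
      exact dvd_pow_self _ hpos.ne'
    rw [Units.val_mk0] at h2
    rw [← h2] at h3
    exact lt_irrefl _ h3
  · intro v' hv'
    have h3 : v'.valuation N (g : N) = 1 := by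
      refine le_antisymm (HeightOneSpectrum.valuation_le_one v' g) ?_
      by_contra hlt
      rw [not_le, HeightOneSpectrum.valuation_lt_one_iff_dvd, ← hg] at hlt
      have h4 : v'.asIdeal ∣ v.asIdeal := v'.prime.dvd_of_dvd_pow hlt
      apply hv'
      have h5 : v.asIdeal ≤ v'.asIdeal := Ideal.le_of_dvd h4
      have h6 : v.asIdeal = v'.asIdeal :=
        (v.isPrime.isMaximal v.ne_bot).eq_of_le v'.isPrime.ne_top h5
      exact HeightOneSpectrum.ext h6.symm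
    have h2 := vz_eq v' (Units.mk0 (g : N) hgN)
    rw [Units.val_mk0, h3] at h2
    exact WithZero.coe_injective h2

/-- generators of the group of the units outside `v₁`, `v₂` modulo the units -/
theorem exists_basis {v₁ v₂ : HeightOneSpectrum (𝓞 N)} (hne : v₁ ≠ v₂) :
    ∃ w₁ ∈ Wp v₁ v₂, ∃ w₂ ∈ Wp v₁ v₂, ∀ (p e₁ e₂ : ℕ), p ≠ 0 → ∀ y ∈ Wp v₁ v₂,
      ∀ u : (𝓞 N)ˣ, (u : N) * (w₁ : N) ^ e₁ * (w₂ : N) ^ e₂ = (y : N) ^ p → p ∣ e₁ ∧ p ∣ e₂ := by
  -- additive versions of the two valuations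
  let f₁ : Additive (Wp v₁ v₂) →+ ℤ :=
    (MonoidHom.toAdditiveLeft ((vz v₁).comp (Wp v₁ v₂).subtype))
  let f₂ : Additive (Wp v₁ v₂) →+ ℤ :=
    (MonoidHom.toAdditiveLeft ((vz v₂).comp (Wp v₁ v₂).subtype))
  have hf₁ : ∀ x : Wp v₁ v₂, f₁ (Additive.ofMul x) = Multiplicative.toAdd (vz v₁ (x : Nˣ)) :=
    fun x => rfl
  have hf₂ : ∀ x : Wp v₁ v₂, f₂ (Additive.ofMul x) = Multiplicative.toAdd (vz v₂ (x : Nˣ)) :=
    fun x => rfl
  obtain ⟨g₁, hg₁, hg₁'⟩ := exists_gen v₁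
  obtain ⟨g₂, hg₂, hg₂'⟩ := exists_gen v₂
  have m₁ : g₁ ∈ Wp v₁ v₂ := fun v h1 _ => hg₁' v h1
  have m₂ : g₂ ∈ Wp v₁ v₂ := fun v _ h2 => hg₂' v h2
  obtain ⟨a, ha⟩ := Int.subgroup_cyclic ((f₂.ker).map f₁)
  obtain ⟨b, hb⟩ := Int.subgroup_cyclic f₂.range
  have ha0 : a ≠ 0 := by
    rintro rfl
    have h1 : f₁ (Additive.ofMul ⟨g₁, m₁⟩) ∈ (f₂.ker).map f₁ := by
      refine AddSubgroup.mem_map_of_mem _ ?_
      rw [AddMonoidHom.mem_ker, hf₂]
      change Multiplicative.toAdd (vz v₂ g₁) = 0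
      rw [hg₁' v₂ hne.symm]; rfl
    rw [ha, AddSubgroup.closure_singleton_zero, AddSubgroup.mem_bot, hf₁] at h1
    exact hg₁ (Multiplicative.toAdd.injective h1)
  have hb0 : b ≠ 0 := by
    rintro rfl
    have h1 : f₂ (Additive.ofMul ⟨g₂, m₂⟩) ∈ f₂.range := ⟨_, rfl⟩
    rw [hb, AddSubgroup.closure_singleton_zero, AddSubgroup.mem_bot, hf₂] at h1
    exact hg₂ (Multiplicative.toAdd.injective h1)
  obtain ⟨w₁, hw₁, hw₁'⟩ : ∃ w, w ∈ f₂.ker ∧ f₁ w = a := by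
    have : a ∈ (f₂.ker).map f₁ := by rw [ha]; exact AddSubgroup.mem_closure_singleton_self a
    obtain ⟨w, h1, h2⟩ := this
    exact ⟨w, h1, h2⟩
  obtain ⟨w₂, hw₂⟩ : ∃ w, f₂ w = b := by
    have : b ∈ f₂.range := by rw [hb]; exact AddSubgroup.mem_closure_singleton_self b
    exact this
  rw [AddMonoidHom.mem_ker] at hw₁
  refine ⟨w₁.toMul.1, w₁.toMul.2, w₂.toMul.1, w₂.toMul.2, ?_⟩
  intro p e₁ e₂ hp0 y hy u hu
  have hu' : (Units.map (algebraMap (𝓞 N) N : 𝓞 N →* N) u : Nˣ) * w₁.toMul.1 ^ e₁ *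
      w₂.toMul.1 ^ e₂ = y ^ p := by
    ext
    push_cast
    exact hu
  obtain ⟨Y, hY⟩ : ∃ Y : Additive (Wp v₁ v₂), Y = Additive.ofMul ⟨y, hy⟩ := ⟨_, rfl⟩
  have v1 : vz v₁ (Units.map (algebraMap (𝓞 N) N : 𝓞 N →* N) u : Nˣ) = 1 := vz_unit v₁ u _ rfl
  have v2 : vz v₂ (Units.map (algebraMap (𝓞 N) N : 𝓞 N →* N) u : Nˣ) = 1 := vz_unit v₂ u _ rfl
  have k2 := congrArg (fun t => Multiplicative.toAdd (vz v₂ t)) hu'
  have k1 := congrArg (fun t => Multiplicative.toAdd (vz v₁ t)) hu'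
  simp only [map_mul, map_pow, v1, v2, one_mul, toAdd_mul, toAdd_pow] at k1 k2
  have q1 : Multiplicative.toAdd (vz v₂ w₁.toMul.1) = 0 := hw₁
  have q2 : Multiplicative.toAdd (vz v₂ w₂.toMul.1) = b := hw₂
  have q3 : Multiplicative.toAdd (vz v₁ w₁.toMul.1) = a := hw₁'
  have q4 : Multiplicative.toAdd (vz v₁ w₂.toMul.1) = f₁ w₂ := rfl
  have q5 : Multiplicative.toAdd (vz v₁ y) = f₁ Y := by rw [hY]; rfl
  have q6 : Multiplicative.toAdd (vz v₂ y) = f₂ Y := by rw [hY]; rfl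
  rw [q1, q2, q6] at k2
  rw [q3, q4, q5] at k1
  have r2 : f₂ Y ∈ f₂.range := ⟨_, rfl⟩
  rw [hb, AddSubgroup.mem_closure_singleton] at r2
  obtain ⟨n, hn⟩ := r2
  simp only [nsmul_eq_mul, zsmul_eq_mul, mul_zero, zero_add] at k1 k2 hn
  simp only [Int.cast_eq] at hn
  have hpZ : (p : ℤ) ≠ 0 := Int.natCast_ne_zero.2 hp0
  have he₂ : (e₂ : ℤ) = p * n := by
    have : (e₂ : ℤ) * b = (p * n) * b := by rw [k2, ← hn]; ring
    exact mul_right_cancel₀ hb0 this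
  have r1 : f₁ (Y - n • w₂) ∈ (f₂.ker).map f₁ := by
    refine AddSubgroup.mem_map_of_mem _ ?_
    rw [AddMonoidHom.mem_ker, map_sub, map_zsmul, hw₂, zsmul_eq_mul, Int.cast_eq, hn, sub_self]
  rw [ha, AddSubgroup.mem_closure_singleton] at r1
  obtain ⟨n', hn'⟩ := r1
  rw [map_sub, map_zsmul, zsmul_eq_mul, zsmul_eq_mul, Int.cast_eq, Int.cast_eq] at hn'
  have he₁ : (e₁ : ℤ) = p * n' := by
    have : (e₁ : ℤ) * a = (p * n') * a := by
      rw [he₂] at k1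
      linear_combination k1 - (p : ℤ) * hn'
    exact mul_right_cancel₀ ha0 this
  exact ⟨Int.natCast_dvd_natCast.1 ⟨n', he₁⟩, Int.natCast_dvd_natCast.1 ⟨n, he₂⟩⟩

/-- independence of the fundamental units and of the root of unity modulo `p`-th powers -/
theorem unit_part {p : ℕ} {ζ : (𝓞 N)ˣ} (hζ : ζ ∈ Units.torsion N) (hpζ : p ∣ orderOf ζ)
    (hgen : ∀ x ∈ Units.torsion N, ∃ k : ℤ, ζ ^ k = x) (z : ℕ)
    (e : Fin (Units.rank N) → ℕ) (y : (𝓞 N)ˣ)
    (h : ζ ^ z * ∏ i, Units.fundSystem N i ^ e i = y ^ p) : p ∣ z ∧ ∀ i, p ∣ e i := by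
  obtain ⟨⟨t, f⟩, hy, -⟩ := Units.exist_unique_eq_mul_prod N y
  simp only at hy
  obtain ⟨_, -, huniq⟩ := Units.exist_unique_eq_mul_prod N (y ^ p)
  have h1 := huniq (⟨ζ ^ z, Subgroup.pow_mem _ hζ z⟩, fun i => (e i : ℤ)) (by
    simp only [zpow_natCast]; exact h.symm)
  have h2 := huniq (⟨(t : (𝓞 N)ˣ) ^ p, Subgroup.pow_mem _ t.2 p⟩, fun i => p * f i) (by
    simp only
    rw [hy, mul_pow, ← Finset.prod_pow]
    congr 1
    refine Finset.prod_congr rfl fun i _ => ?_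
    rw [← zpow_natCast, ← zpow_mul, mul_comm])
  have h3 := h1.trans h2.symm
  rw [Prod.mk.injEq] at h3
  obtain ⟨h4, h5⟩ := h3
  have he0 : ∀ i, p ∣ e i := by
    intro i
    have := congrFun h5 i
    exact Int.natCast_dvd_natCast.1 ⟨f i, this⟩
  refine ⟨?_, he0⟩
  have h6 : ζ ^ z = (t : (𝓞 N)ˣ) ^ p := congrArg Subtype.val h4
  obtain ⟨k, hk⟩ := hgen t t.2
  have h7 : ζ ^ ((z : ℤ) - p * k) = 1 := by
    rw [zpow_sub, zpow_natCast, mul_comm (p : ℤ) k, zpow_mul, hk, zpow_natCast, h6]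
    exact mul_inv_cancel _
  have h8 : ((orderOf ζ : ℕ) : ℤ) ∣ (z : ℤ) - p * k := orderOf_dvd_iff_zpow_eq_one.2 h7
  have h9 : (p : ℤ) ∣ (z : ℤ) - p * k := (Int.natCast_dvd_natCast.2 hpζ).trans h8
  have h10 : (p : ℤ) ∣ z := by
    have := dvd_add h9 (Dvd.intro k rfl : (p : ℤ) ∣ p * k)
    rwa [sub_add_cancel] at this
  exact Int.natCast_dvd_natCast.1 h10

theorem s_D1 : Pool.Agent.L7h48.SG.S_D1 := by
  classical
  intro p hp hp2 N _ _ m hm hr hζp P₁ P₂ hP₁ hP₂ hne h21 h22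
  have hp0 : p ≠ 0 := hp.out.ne_zero
  have hne0 : ∀ P : Ideal (𝓞 N), (p : 𝓞 N) ∈ P → P ≠ ⊥ := by
    rintro P h rfl
    rw [Ideal.mem_bot] at h
    exact Nat.cast_ne_zero.2 hp0 h
  let v₁ : HeightOneSpectrum (𝓞 N) := ⟨P₁, hP₁, hne0 P₁ h21⟩
  let v₂ : HeightOneSpectrum (𝓞 N) := ⟨P₂, hP₂, hne0 P₂ h22⟩
  have hv : v₁ ≠ v₂ := fun h => hne (congrArg HeightOneSpectrum.asIdeal h)
  obtain ⟨w₁, hw₁, w₂, hw₂, hw⟩ := exists_basis hv
  obtain ⟨⟨ζ, hζ⟩, hgen'⟩ := IsCyclic.exists_generator (α := Units.torsion N)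
  have hgen : ∀ x ∈ Units.torsion N, ∃ k : ℤ, ζ ^ k = x := by
    intro x hx
    obtain ⟨k, hk⟩ := Subgroup.mem_zpowers_iff.1 (hgen' ⟨x, hx⟩)
    exact ⟨k, congrArg Subtype.val hk⟩
  have hpζ : p ∣ orderOf ζ := by
    obtain ⟨ξ, hξ⟩ := hζp
    have hξi : IsIntegral ℤ ξ := hξ.isIntegral hp.out.pos
    obtain ⟨x, hx⟩ : ∃ x : (𝓞 N)ˣ, (x : N) = ξ := by
      have h1 : (⟨ξ, hξi⟩ : 𝓞 N) ^ p = 1 := by
        apply RingOfIntegers.ext
        have h2 : ((⟨ξ, hξi⟩ : 𝓞 N) : N) ^ p = 1 := hξ.pow_eq_one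
        exact h2
      exact ⟨Units.ofPowEqOne _ p h1 hp0, rfl⟩
    have hxp : x ^ p = 1 := by
      apply Units.coe_injective
      simp only
      rw [Units.coe_pow, hx, hξ.pow_eq_one]
      simp
    have hx1 : x ≠ 1 := by
      rintro rfl
      rw [Units.coe_one] at hx
      exact hξ.ne_one hp.out.one_lt hx.symm
    have hord : orderOf x = p := orderOf_eq_prime hxp hx1
    obtain ⟨k, hk⟩ := hgen x (by
      rw [Units.torsion, CommGroup.mem_torsion, isOfFinOrder_iff_pow_eq_one]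
      exact ⟨p, hp.out.pos, hxp⟩)
    have h2 : x ^ orderOf ζ = 1 := by
      rw [← hk, ← zpow_natCast, ← zpow_mul, mul_comm, zpow_mul, zpow_natCast, pow_orderOf_eq_one,
        one_zpow]
    have h3 := orderOf_dvd_of_pow_eq_one h2
    rwa [hord] at h3
  -- the rank
  have hrank : Units.rank N + 3 = m + 2 := by
    have h1 := NumberField.InfinitePlace.card_add_two_mul_card_eq_rank N
    have h2 := NumberField.InfinitePlace.card_eq_nrRealPlaces_add_nrComplexPlaces N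
    have h3 : 0 < Module.finrank ℚ N := Module.finrank_pos
    rw [Units.rank, h2, hr]
    omega
  -- the elements
  let j : (𝓞 N)ˣ → Nˣ := Units.map (algebraMap (𝓞 N) N : 𝓞 N →* N)
  let U : Fin (Units.rank N) ⊕ Fin 3 → Nˣ :=
    Sum.elim (fun i => j (Units.fundSystem N i)) ![j ζ, w₁, w₂]
  have hj : ∀ u : (𝓞 N)ˣ, j u ∈ Wp v₁ v₂ := fun u v _ _ => vz_unit v u _ rfl
  have hU : ∀ i, U i ∈ Wp v₁ v₂ := by
    rintro (i | i)
    · exact hj _
    · fin_cases i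
      · exact hj _
      · exact hw₁
      · exact hw₂
  have hcard : Fintype.card (Fin (m + 2)) = Fintype.card (Fin (Units.rank N) ⊕ Fin 3) := by
    simp [← hrank]
  let E : Fin (m + 2) ≃ Fin (Units.rank N) ⊕ Fin 3 := Fintype.equivOfCardEq hcard
  refine ⟨fun i => (U (E i) : N), fun i => (U (E i)).ne_zero, fun i => ?_, ?_⟩
  · obtain ⟨k₁, hk₁⟩ := pUnit_of_mem hp0 (v₁ := v₁) (v₂ := v₂) h21 h22 (hU (E i))
    obtain ⟨k₂, hk₂⟩ := pUnit_of_mem hp0 (v₁ := v₁) (v₂ := v₂) h21 h22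
      ((Wp v₁ v₂).inv_mem (hU (E i)))
    have h2 : IsIntegral ℤ (p : N) := by
      have := isIntegral_algebraMap (R := ℤ) (A := N) (x := p)
      simpa using this
    refine ⟨k₁ + k₂, ?_, ?_⟩
    · rw [pow_add, mul_comm ((p : N) ^ k₁) ((p : N) ^ k₂), mul_assoc]
      exact (h2.pow k₂).mul hk₁
    · rw [pow_add, mul_assoc]
      rw [Units.val_inv_eq_inv_val] at hk₂
      exact (h2.pow k₁).mul hk₂
  · intro S hS
    let ε : Fin (Units.rank N) ⊕ Fin 3 → ℕ := fun i => S (E.symm i)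
    obtain ⟨y, hy⟩ := hS
    have hprod : ∏ i, (U (E i) : N) ^ S i = ((∏ i, U i ^ ε i : Nˣ) : N) := by
      rw [← Equiv.prod_comp E]
      simp only [ε, Equiv.symm_apply_apply]
      push_cast
      rfl
    have hy0 : y ≠ 0 := by
      rintro rfl
      rw [zero_pow hp0, hprod] at hy
      exact Units.ne_zero _ hy.symm
    have hy' : (∏ i, U i ^ ε i : Nˣ) = (Units.mk0 y hy0) ^ p := by
      ext
      rw [← hprod, ← hy, Units.val_pow_eq_pow_val, Units.val_mk0]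
    have hroot : ∀ (v : HeightOneSpectrum (𝓞 N)) (t : Nˣ), vz v (t ^ p) = 1 → vz v t = 1 := by
      intro v t h4
      rw [map_pow] at h4
      have h5 := congrArg Multiplicative.toAdd h4
      rw [toAdd_pow, toAdd_one, nsmul_eq_mul] at h5
      apply Multiplicative.toAdd.injective
      rw [toAdd_one]
      rcases mul_eq_zero.1 h5 with h6 | h6
      · exact absurd (Int.natCast_eq_zero.1 h6) hp0
      · exact h6
    have hyW : Units.mk0 y hy0 ∈ Wp v₁ v₂ := by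
      intro v h1 h2
      have h3 : ∏ i, U i ^ ε i ∈ Wp v₁ v₂ :=
        Subgroup.prod_mem _ fun i _ => Subgroup.pow_mem _ (hU i) _
      have h4 := h3 v h1 h2
      rw [hy'] at h4
      exact hroot v _ h4
    rw [Fintype.prod_sum_type, Fin.prod_univ_three] at hy'
    -- the unit part
    have hU0 : U (Sum.inr 0) = j ζ := rfl
    have hU1 : U (Sum.inr 1) = w₁ := rfl
    have hU2 : U (Sum.inr 2) = w₂ := rfl
    have hUl : ∀ i, U (Sum.inl i) = j (Units.fundSystem N i) := fun i => rfl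
    have hj2 : ∀ u : (𝓞 N)ˣ, ((j u : Nˣ) : N) = (u : N) := fun u => rfl
    have hj3 : j ζ ^ ε (Sum.inr 0) * ∏ i, j (Units.fundSystem N i) ^ ε (Sum.inl i) =
        j (ζ ^ ε (Sum.inr 0) * ∏ i, Units.fundSystem N i ^ ε (Sum.inl i)) := by
      simp only [j, map_mul, map_pow, map_prod]
    have hy2 : j (ζ ^ ε (Sum.inr 0) * ∏ i, Units.fundSystem N i ^ ε (Sum.inl i)) *
        w₁ ^ ε (Sum.inr 1) * w₂ ^ ε (Sum.inr 2) = (Units.mk0 y hy0) ^ p := by
      rw [← hy', hU0, hU1, hU2, ← hj3]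
      simp only [hUl]
      simp only [mul_comm, mul_left_comm]
    have hy3 : (((ζ ^ ε (Sum.inr 0) * ∏ i, Units.fundSystem N i ^ ε (Sum.inl i) : (𝓞 N)ˣ)) : N) *
        (w₁ : N) ^ ε (Sum.inr 1) * (w₂ : N) ^ ε (Sum.inr 2) = ((Units.mk0 y hy0 : Nˣ) : N) ^ p := by
      have hyv2 := congrArg (fun t : Nˣ => (t : N)) hy2
      simp only [Units.val_pow_eq_pow_val] at hyv2
      rw [← hyv2, ← hj2]
      push_cast
      ring
    obtain ⟨⟨a₁, h1⟩, ⟨a₂, h2⟩⟩ := hw p _ _ hp0 _ hyW _ hy3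
    obtain ⟨y₁, hy₁⟩ : ∃ y₁ : Nˣ, y₁ = Units.mk0 y hy0 * (w₁ ^ a₁ * w₂ ^ a₂)⁻¹ := ⟨_, rfl⟩
    have hy₁p : j (ζ ^ ε (Sum.inr 0) * ∏ i, Units.fundSystem N i ^ ε (Sum.inl i)) = y₁ ^ p := by
      rw [hy₁, mul_pow, ← hy2, inv_pow, mul_pow, ← pow_mul, ← pow_mul, h1, h2, mul_comm a₁ p,
        mul_comm a₂ p, mul_assoc, mul_assoc]
      simp
    -- `y₁` is a unit
    have hyv : ∀ v : HeightOneSpectrum (𝓞 N), vz v y₁ = 1 := by
      intro v
      refine hroot v _ ?_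
      rw [← hy₁p]
      exact vz_unit v _ _ rfl
    obtain ⟨y', hy4⟩ := exists_unit_of_vz hyv
    have hy5 : ζ ^ ε (Sum.inr 0) * ∏ i, Units.fundSystem N i ^ ε (Sum.inl i) = y' ^ p := by
      apply Units.coe_injective
      simp only
      rw [← hj2, hy₁p, Units.val_pow_eq_pow_val, ← hy4, Units.coe_pow]
    obtain ⟨h3, h4⟩ := unit_part hζ hpζ hgen _ _ y' hy5
    intro i
    have hall : ∀ k, p ∣ ε k := by
      rintro (k | k)
      · exact h4 k
      · fin_cases k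
        · exact h3
        · exact ⟨a₁, h1⟩
        · exact ⟨a₂, h2⟩
    have := hall (E i)
    simpa only [ε, Equiv.symm_apply_apply] using this

end Pool.Agent.L7h79.SG
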