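import Pool.Agent.L7h48.SG.Stm

/-!
# Project SG, job D3: the `p ^ k`-th roots of the `p`-units are unramified at the other primes
-/

set_option autoImplicit false

namespace Pool.Agent.L7h79.SG

open Pool.Agent.L7h48.SG
open Pool.Agent.Y715.Gi (QB KK GK)
open Pool.Agent.Y715.Nr Pool.Agent.W237.RK
open Pool.Agent.Z384 (II DD DDs)

/-- integral elements have norm at most one -/
lemma norm_le_of_int {q : ℕ} [Fact q.Prime] {x : PadicAlgCl q} (hx : IsIntegral ℤ x) :
    ‖x‖ ≤ 1 := by
  have h : IsIntegral (NormedField.valuation (K := PadicAlgCl q)).integer x := hx.tower_top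
  have h2 := (Valuation.integer.integers (NormedField.valuation (K := PadicAlgCl q))).mem_of_integral h
  rw [Valuation.mem_integer_iff, NormedField.valuation_apply] at h2
  exact_mod_cast h2

/-- other primes are units -/
lemma norm_other {p q : ℕ} [hp : Fact p.Prime] [hq : Fact q.Prime] (h : q ≠ p) :
    ‖(p : PadicAlgCl q)‖ = 1 := by
  have h1 : ¬ q ∣ p := fun h' => h ((Nat.prime_dvd_prime_iff_eq hq.out hp.out).1 h')
  exact Pool.Agent.W327.RK.norm_nat h1

lemma sub_one_pow {q : ℕ} [Fact q.Prime] {z : PadicAlgCl q} (h : ‖z - 1‖ < 1) (n : ℕ) :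
    ‖z ^ n - 1‖ < 1 := by
  have hz : ‖z‖ ≤ 1 := by
    have e : z = (z - 1) + 1 := by ring
    rw [e]
    refine (IsUltrametricDist.norm_add_le_max _ _).trans (max_le h.le (by rw [norm_one]))
  induction n with
  | zero => simp
  | succ n ih =>
    have e : z ^ (n + 1) - 1 = z * (z ^ n - 1) + (z - 1) := by ring
    rw [e]
    refine lt_of_le_of_lt (IsUltrametricDist.norm_add_le_max _ _) (max_lt ?_ h)
    rw [norm_mul]
    calc ‖z‖ * ‖z ^ n - 1‖ ≤ 1 * ‖z ^ n - 1‖ := by gcongr
      _ < 1 := by rw [one_mul]; exact ih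

/-- a `p ^ k`-th root of unity which is congruent to one is one -/
lemma root_one {p q : ℕ} [hp : Fact p.Prime] [hq : Fact q.Prime] (hqp : q ≠ p) (k : ℕ) :
    ∀ z : PadicAlgCl q, z ^ p ^ k = 1 → ‖z - 1‖ < 1 → z = 1 := by
  induction k with
  | zero => intro z hz _; simpa using hz
  | succ k ih =>
    intro z hz h1
    have h2 : z ^ p = 1 := ih _ (by rw [← pow_mul, ← pow_succ']; exact hz) (sub_one_pow h1 p)
    by_contra hne
    have h3 : ∑ i ∈ Finset.range p, z ^ i = 0 := by
      have h4 := geom_sum_mul z p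
      rw [h2, sub_self] at h4
      rcases mul_eq_zero.1 h4 with h5 | h5
      · exact h5
      · exact absurd (sub_eq_zero.1 h5) hne
    have h4 : ‖∑ i ∈ Finset.range p, (z ^ i - 1)‖ < 1 := by
      obtain ⟨i, -, hi⟩ := IsUltrametricDist.exists_norm_finset_sum_le (Finset.range p)
        (fun i => z ^ i - 1)
      exact lt_of_le_of_lt hi (sub_one_pow h1 i)
    rw [Finset.sum_sub_distrib, h3, Finset.sum_const, Finset.card_range, nsmul_eq_mul, mul_one,
      zero_sub, norm_neg, norm_other hqp] at h4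
    exact lt_irrefl _ h4

theorem s_D3 : S_D3 := by
  intro p hp s q hq ι hqp σ hσ x k hx hfix
  obtain ⟨τ, hτ, hin⟩ := hσ
  obtain ⟨hx0, j, h1, h2⟩ := hx
  have hb : ∀ y : QB, IsIntegral ℤ ((p : QB) ^ j * y) → ‖ι y‖ ≤ 1 := by
    intro y hy
    have h3 : IsIntegral ℤ (ι ((p : QB) ^ j * y)) := by
      have := hy.map (ι : QB →+* PadicAlgCl q).toIntAlgHom
      exact this
    have h4 := norm_le_of_int h3
    rw [map_mul, map_pow, map_natCast, norm_mul, norm_pow, norm_other hqp, one_pow, one_mul] at h4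
    exact h4
  have h3 := hb _ h1
  have h4 := hb _ h2
  have h5 : ‖ι (x ^ p ^ k)‖ = 1 := by
    refine le_antisymm h3 ?_
    rw [map_inv₀, norm_inv] at h4
    have h6 : 0 < ‖ι (x ^ p ^ k)‖ := norm_pos_iff.2 (by rwa [Ne, map_eq_zero])
    by_contra h7
    push Not at h7
    have := one_lt_inv_iff₀.2 ⟨h6, h7⟩
    linarith
  have h6 : ‖ι x‖ = 1 := by
    rw [map_pow, norm_pow] at h5
    exact (pow_eq_one_iff_of_nonneg (norm_nonneg _) (pow_ne_zero _ hp.out.ne_zero)).1 h5
  have hne : ι x ≠ 0 := norm_pos_iff.1 (by rw [h6]; norm_num)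
  have h7 : τ (ι x) / ι x = 1 := by
    refine root_one hqp k _ ?_ ?_
    · rw [div_pow, ← map_pow, ← map_pow, hτ, hfix, div_self]
      rw [map_pow]; exact pow_ne_zero _ hne
    · have h8 := hin (ι x) h6.le
      have e : τ (ι x) / ι x - 1 = (τ (ι x) - ι x) / ι x := by field_simp
      rw [e, norm_div, h6, div_one]
      exact h8
  rw [div_eq_one_iff_eq hne, hτ] at h7
  exact ι.injective h7

end Pool.Agent.L7h79.SG
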