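import Pool.Agent.L7h79.SG.E1
import Mathlib.GroupTheory.IndexNormal

/-!
# Project SG, job E0: elementary facts on the group `Γ`
-/

set_option autoImplicit false

namespace Pool.Agent.L7h79.SG

open Pool.Agent.L7h48.SG
open Pool.Agent.Y715.Gi (QB KK GK)
open Pool.Agent.Y715.Nr Pool.Agent.W237.RK
open Pool.Agent.Y715.Df (Cmp exists_cmp gh)
open Pool.Agent.Z384 (II DD DDs II_conj)

variable {p : ℕ} [hp : Fact p.Prime] {s : QB}

/-- a proper subgroup of a finite `p`-group is killed by a nontrivial homomorphism to `ℤ/p` -/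
lemma exists_hom {P : Type*} [Group P] [Finite P] {a : ℕ} (hP : Nat.card P = p ^ a)
    {Q : Subgroup P} (hQ : Q ≠ ⊤) :
    ∃ f : P →* Multiplicative (ZMod p), Q ≤ f.ker ∧ f ≠ 1 := by
  obtain ⟨m, hm, hQm⟩ := (Nat.dvd_prime_pow hp.out).1 (hP ▸ Subgroup.card_subgroup_dvd_card Q)
  have hma : m ≠ a := by
    rintro rfl
    exact hQ (Subgroup.eq_top_of_card_eq Q (by rw [hQm, hP]))
  obtain ⟨b, rfl⟩ : ∃ b, a = b + 1 := ⟨a - 1, by omega⟩
  obtain ⟨K, hK, hQK⟩ := Sylow.exists_subgroup_card_pow_prime_le (G := P) p (n := m) (m := b)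
    (by rw [hP]; exact pow_dvd_pow _ (by omega)) Q hQm (by omega)
  have hidx : K.index = p := by
    have h1 := K.card_mul_index
    rw [hK, hP, pow_succ] at h1
    exact Nat.eq_of_mul_eq_mul_left (pow_pos hp.out.pos _) h1
  have hn : K.Normal := by
    refine Subgroup.normal_of_index_eq_minFac_card ?_
    rw [hP, hidx, Nat.Prime.pow_minFac hp.out (by omega)]
  have hc : Nat.card (P ⧸ K) = p := by
    rw [← Subgroup.index_eq_card]; exact hidx
  let e : P ⧸ K ≃* Multiplicative (ZMod p) := mulEquivOfPrimeCardEq hc (by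
    rw [Nat.card_eq_fintype_card, Fintype.card_multiplicative, ZMod.card])
  refine ⟨e.toMonoidHom.comp (QuotientGroup.mk' K), ?_, ?_⟩
  · intro x hx
    rw [MonoidHom.mem_ker, MonoidHom.comp_apply]
    have h1 : QuotientGroup.mk' K x = 1 := (QuotientGroup.eq_one_iff x).2 (hQK hx)
    rw [h1, map_one]
  · intro h
    have h1 : K = ⊤ := by
      rw [eq_top_iff]
      intro x _
      have h2 := DFunLike.congr_fun h x
      rw [MonoidHom.comp_apply, MonoidHom.one_apply] at h2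
      have h3 : QuotientGroup.mk' K x = 1 := e.injective (h2.trans (map_one e).symm)
      exact (QuotientGroup.eq_one_iff x).1 h3
    rw [h1, Subgroup.index_top] at hidx
    exact hp.out.one_lt.ne hidx

variable {ι₀ : QB →ₐ[ℚ] PadicAlgCl p} {𝓛 : Subgroup (GK s)}

lemma te_L (hL : Lev p 𝓛 ι₀) : TE p 𝓛 𝓛 where
  isOpen := hL.isOpen
  normal := hL.normal
  le := le_rfl
  index := ⟨0, by rw [Subgroup.relIndex_self, pow_zero]⟩
  unramified := hL.unr

/-- a normal open subgroup with quotient a `p`-group -/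
lemma te_of {N : Subgroup (GK s)} (ho : IsOpen (N : Set (GK s))) (hn : N.Normal) (hle : N ≤ 𝓛)
    {a : ℕ} (hpw : ∀ g ∈ 𝓛, g ^ p ^ a ∈ N) (hu : ∀ σ : GK s, Ram p σ → σ ∈ N) : TE p 𝓛 N where
  isOpen := ho
  normal := hn
  le := hle
  index := by
    have hfin : Finite (GK s ⧸ N) := Subgroup.quotient_finite_of_isOpen N ho
    have hNf : N.FiniteIndex := Subgroup.finiteIndex_of_finite_quotient
    have hNf' : (N.subgroupOf 𝓛).FiniteIndex := inferInstance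
    have hfin' : Finite (𝓛 ⧸ N.subgroupOf 𝓛) := inferInstance
    have hp2 : IsPGroup p (𝓛 ⧸ N.subgroupOf 𝓛) := by
      intro x
      obtain ⟨g, rfl⟩ := QuotientGroup.mk_surjective x
      refine ⟨a, ?_⟩
      rw [← QuotientGroup.mk_pow]
      exact (QuotientGroup.eq_one_iff _).2 (by
        rw [Subgroup.mem_subgroupOf]
        exact hpw _ g.2)
    obtain ⟨c, hc⟩ := IsPGroup.iff_card.1 hp2
    exact ⟨c, hc⟩
  unramified := hu

lemma te_pow {N : Subgroup (GK s)} (hN : TE p 𝓛 N) : ∃ a : ℕ, ∀ g ∈ 𝓛, g ^ p ^ a ∈ N := by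
  obtain ⟨a, ha⟩ := hN.index
  have := hN.normal
  refine ⟨a, fun g hg => ?_⟩
  have h1 := (N.subgroupOf 𝓛).pow_index_mem (⟨g, hg⟩ : 𝓛)
  rw [show (N.subgroupOf 𝓛).index = p ^ a from ha, Subgroup.mem_subgroupOf] at h1
  exact h1

lemma te_inf {N M : Subgroup (GK s)} (hN : TE p 𝓛 N) (hM : TE p 𝓛 M) : TE p 𝓛 (N ⊓ M) := by
  obtain ⟨a, ha⟩ := te_pow hN
  obtain ⟨b, hb⟩ := te_pow hM
  have := hN.normal
  have := hM.normal
  refine te_of (a := a + b) (hN.isOpen.inter hM.isOpen) inferInstance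
    (inf_le_left.trans hN.le) (fun g hg => ⟨?_, ?_⟩)
    fun σ hσ => ⟨hN.unramified σ hσ, hM.unramified σ hσ⟩
  · rw [pow_add, pow_mul]
    exact pow_mem (ha g hg) _
  · rw [pow_add, mul_comm, pow_mul]
    exact pow_mem (hb g hg) _

omit hp in
lemma nf_le {N : Subgroup (GK s)} (hN : TE p 𝓛 N) : Nf p 𝓛 ≤ N := sInf_le hN

/-- clause 9 -/
lemma exists_te (hL : Lev p 𝓛 ι₀) (U : Subgroup (GK s)) (hU : IsOpen (U : Set (GK s)))
    (hN : Nf p 𝓛 ≤ U) : ∃ N, TE p 𝓛 N ∧ N ≤ U := by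
  have hK : IsCompact ((U : Set (GK s))ᶜ) := hU.isClosed_compl.isCompact
  have : Nonempty {N : Subgroup (GK s) // TE p 𝓛 N} := ⟨⟨𝓛, te_L hL⟩⟩
  have key := hK.elim_directed_family_closed
    (fun N : {N : Subgroup (GK s) // TE p 𝓛 N} => ((N : Subgroup (GK s)) : Set (GK s)))
    (fun N => Subgroup.isClosed_of_isOpen _ N.2.isOpen) ?_ ?_
  · obtain ⟨N, hN'⟩ := key
    refine ⟨N, N.2, fun x hx => ?_⟩
    by_contra h
    have : x ∈ (U : Set (GK s))ᶜ ∩ ((N : Subgroup (GK s)) : Set (GK s)) := ⟨h, hx⟩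
    rw [hN'] at this
    exact this
  · ext x
    simp only [Set.mem_inter_iff, Set.mem_compl_iff, Set.mem_iInter, Set.mem_empty_iff_false,
      iff_false, not_and]
    intro hx hall
    refine hx (hN ?_)
    rw [Nf, Subgroup.mem_sInf]
    intro N hN
    exact hall ⟨N, hN⟩
  · intro N M
    exact ⟨⟨N ⊓ M, te_inf N.2 M.2⟩, fun x hx => hx.1, fun x hx => hx.2⟩

omit hp in
lemma isClosed_Nf : IsClosed (Nf p 𝓛 : Set (GK s)) := by
  have h1 : (Nf p 𝓛 : Set (GK s)) = ⋂ N ∈ {N | TE p 𝓛 N}, (N : Set (GK s)) := by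
    rw [Nf, Subgroup.coe_sInf]
  rw [h1]
  refine isClosed_biInter (fun N hN => ?_)
  exact Subgroup.isClosed_of_isOpen _ (TE.isOpen hN)

lemma ram_conj {σ : GK s} (h : Ram p σ) (r : GK s) : Ram p (r * σ * r⁻¹) := by
  obtain ⟨q, hq, ι, hqp, hσ⟩ := h
  refine ⟨q, hq, ι.comp (gh r⁻¹), hqp, ?_⟩
  have := II_conj hσ r⁻¹
  rwa [inv_inv] at this

/-- clause 10 -/
lemma clause10 (hL : Lev p 𝓛 ι₀) (U : Subgroup (GK s)) (hU : IsOpen (U : Set (GK s)))
    (hN : Nf p 𝓛 ≤ U) (hUL : U ≤ 𝓛) (φ : GK s → ZMod p) (hφ : φ ∈ HP p U)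
    (hr : ∀ σ ∈ U, Ram p σ → φ σ = 0) : ∀ σ ∈ Nf p 𝓛, φ σ = 0 := by
  obtain ⟨N, hTE, hNU⟩ := exists_te hL U hU hN
  obtain ⟨a, ha⟩ := te_pow hTE
  obtain ⟨hlc, hadd, hout⟩ := hφ
  have h1 : φ 1 = 0 := by
    have := hadd 1 (one_mem U) 1 (one_mem U)
    rw [mul_one] at this
    exact (left_eq_add.1 this)
  have hpw : ∀ x ∈ U, ∀ n : ℕ, φ (x ^ n) = n * φ x := by
    intro x hx n
    induction n with
    | zero => rw [pow_zero, h1, Nat.cast_zero, zero_mul]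
    | succ n ih =>
      rw [pow_succ, hadd _ (pow_mem hx n) _ hx, ih]
      push_cast
      ring
  -- the kernel
  let W : Subgroup (GK s) :=
    { carrier := {x | x ∈ U ∧ φ x = 0}
      mul_mem' := by
        rintro x y ⟨hx, hx'⟩ ⟨hy, hy'⟩
        refine ⟨mul_mem hx hy, ?_⟩
        rw [hadd x hx y hy, hx', hy', add_zero]
      one_mem' := ⟨one_mem U, h1⟩
      inv_mem' := by
        rintro x ⟨hx, hx'⟩
        refine ⟨inv_mem hx, ?_⟩
        have := hadd x hx x⁻¹ (inv_mem hx)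
        rw [hx', zero_add, mul_inv_cancel, h1] at this
        exact this.symm }
  have hW : ∀ x, x ∈ W ↔ x ∈ U ∧ φ x = 0 := fun x => Iff.rfl
  have hWo : IsOpen (W : Set (GK s)) := by
    have h2 : IsOpen {x : GK s | φ x = 0} := hlc.isOpen_fiber 0
    exact hU.inter h2
  have hWf : W.FiniteIndex := by
    have := Subgroup.quotient_finite_of_isOpen W hWo
    exact Subgroup.finiteIndex_of_finite_quotient
  have hCf : W.normalCore.FiniteIndex := inferInstance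
  have hWc : IsClosed (W : Set (GK s)) := Subgroup.isClosed_of_isOpen _ hWo
  have hCo : IsOpen (W.normalCore : Set (GK s)) :=
    Subgroup.isOpen_of_isClosed_of_finiteIndex _ (W.normalCore_isClosed hWc)
  have hCn : W.normalCore.Normal := W.normalCore_normal
  have hNn := hTE.normal
  have hT : TE p 𝓛 (W.normalCore) := by
    refine te_of (a := a + 1) hCo hCn
      (W.normalCore_le.trans (fun x hx => hUL hx.1)) (fun g hg => ?_) fun σ hσ => ?_
    · intro r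
      have h2 : r * g ^ p ^ a * r⁻¹ ∈ N := hNn.conj_mem _ (ha g hg) r
      have e : r * g ^ p ^ (a + 1) * r⁻¹ = (r * g ^ p ^ a * r⁻¹) ^ p := by
        rw [conj_pow, ← pow_mul, ← pow_succ]
      rw [e]
      refine ⟨pow_mem (hNU h2) p, ?_⟩
      rw [hpw _ (hNU h2) p, CharP.cast_eq_zero, zero_mul]
    · intro r
      have h2 := ram_conj hσ r
      have h3 : r * σ * r⁻¹ ∈ U := hNU (hTE.unramified _ h2)
      exact ⟨h3, hr _ h3 h2⟩
  intro σ hσ
  have h2 : (σ : GK s) ∈ W := W.normalCore_le (nf_le hT hσ)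
  exact h2.2

/-- clause 11 for the subgroups `TE` -/
lemma dens_te (hL : Lev p 𝓛 ι₀) {N : Subgroup (GK s)} (hN : TE p 𝓛 N) (g : GK s) :
    ∃ δ ∈ DDs ι₀, δ⁻¹ * g ∈ N := by
  classical
  have hNn := hN.normal
  obtain ⟨a, ha⟩ := hN.index
  have hNf : (N.subgroupOf 𝓛).FiniteIndex := ⟨by
    rw [show (N.subgroupOf 𝓛).index = p ^ a from ha]
    exact pow_ne_zero _ hp.out.ne_zero⟩
  have hfin : Finite (𝓛 ⧸ N.subgroupOf 𝓛) := inferInstance
  obtain ⟨Q, hQ⟩ : ∃ Q : Subgroup (𝓛 ⧸ N.subgroupOf 𝓛),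
    Q = ((DDs ι₀).subgroupOf 𝓛).map (QuotientGroup.mk' (N.subgroupOf 𝓛)) := ⟨_, rfl⟩
  have hQt : Q = ⊤ := by
    by_contra h
    obtain ⟨f, hf, hf1⟩ := exists_hom (p := p) (a := a) (P := 𝓛 ⧸ N.subgroupOf 𝓛)
      (by rw [← ha]; rfl) h
    obtain ⟨F, hF⟩ : ∃ F : 𝓛 →* Multiplicative (ZMod p),
      F = f.comp (QuotientGroup.mk' (N.subgroupOf 𝓛)) := ⟨_, rfl⟩
    obtain ⟨φ, hφd⟩ : ∃ φ : GK s → ZMod p,
      φ = fun σ => if h : σ ∈ 𝓛 then Multiplicative.toAdd (F ⟨σ, h⟩) else 0 := ⟨_, rfl⟩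
    have hφ1 : ∀ σ (h : σ ∈ 𝓛), φ σ = Multiplicative.toAdd (F ⟨σ, h⟩) := by
      intro σ h
      rw [hφd]
      exact dif_pos h
    have hφ2 : ∀ σ, σ ∉ 𝓛 → φ σ = 0 := by
      intro σ h
      rw [hφd]
      exact dif_neg h
    have hFN : ∀ σ (h : σ ∈ N), F ⟨σ, hN.le h⟩ = 1 := by
      intro σ h
      rw [hF, MonoidHom.comp_apply]
      have h1 : QuotientGroup.mk' (N.subgroupOf 𝓛) ⟨σ, hN.le h⟩ = 1 :=
        (QuotientGroup.eq_one_iff _).2 (by rw [Subgroup.mem_subgroupOf]; exact h)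
      rw [h1, map_one]
    have hφN : ∀ σ ∈ N, φ σ = 0 := by
      intro σ h
      rw [hφ1 σ (hN.le h), hFN σ h, toAdd_one]
    have hφm : ∀ x ∈ 𝓛, ∀ y ∈ 𝓛, φ (x * y) = φ x + φ y := by
      intro x hx y hy
      rw [hφ1 _ (mul_mem hx hy), hφ1 x hx, hφ1 y hy, ← toAdd_mul, ← map_mul]
      rfl
    have hφH : φ ∈ HP p 𝓛 := by
      refine ⟨?_, hφm, hφ2⟩
      rw [IsLocallyConstant.iff_eventually_eq]
      intro σ
      have h1 : ∀ᶠ τ in nhds σ, σ⁻¹ * τ ∈ N := by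
        have h2 : Continuous (fun τ : GK s => σ⁻¹ * τ) := continuous_const.mul continuous_id
        refine h2.continuousAt.eventually (hN.isOpen.mem_nhds ?_)
        show σ⁻¹ * σ ∈ N
        rw [inv_mul_cancel]
        exact one_mem N
      filter_upwards [h1] with τ hτ
      have e : τ = σ * (σ⁻¹ * τ) := by group
      by_cases hσ : σ ∈ 𝓛
      · rw [e, hφm σ hσ _ (hN.le hτ), hφN _ hτ, add_zero]
      · have h3 : τ ∉ 𝓛 := by
          intro h
          rw [e] at h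
          exact hσ ((𝓛.mul_mem_cancel_right (hN.le hτ)).1 h)
        rw [hφ2 σ hσ, hφ2 τ h3]
    have h0 := hL.reg φ hφH (fun σ hσ => hφN σ (hN.unramified σ hσ)) (fun σ hσ hσL => by
      rw [hφ1 σ hσL]
      have h1 : QuotientGroup.mk' (N.subgroupOf 𝓛) ⟨σ, hσL⟩ ∈ Q := by
        rw [hQ]
        exact ⟨⟨σ, hσL⟩, by rw [SetLike.mem_coe, Subgroup.mem_subgroupOf]; exact hσ, rfl⟩
      have h2 := hf h1
      rw [MonoidHom.mem_ker] at h2
      rw [hF, MonoidHom.comp_apply, h2, toAdd_one])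
    refine hf1 (MonoidHom.ext fun x => ?_)
    obtain ⟨y, rfl⟩ := QuotientGroup.mk_surjective x
    have h1 : φ (y : GK s) = 0 := by rw [h0]; rfl
    rw [hφ1 _ y.2] at h1
    have h2 : F y = 1 := by
      have : F ⟨(y : GK s), y.2⟩ = F y := rfl
      rw [← this]
      exact toAdd_eq_zero.1 h1
    rw [hF, MonoidHom.comp_apply] at h2
    exact h2
  obtain ⟨δ, hδ, hδg⟩ := hL.dec g
  have h1 : QuotientGroup.mk' (N.subgroupOf 𝓛) ⟨δ⁻¹ * g, hδg⟩ ∈ Q := by
    rw [hQt]; trivial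
  rw [hQ] at h1
  obtain ⟨ε, hε, hεg⟩ := h1
  rw [SetLike.mem_coe, Subgroup.mem_subgroupOf] at hε
  have h2 := QuotientGroup.eq.1 hεg
  rw [Subgroup.mem_subgroupOf] at h2
  refine ⟨δ * ε, mul_mem hδ hε, ?_⟩
  have e : (δ * (ε : GK s))⁻¹ * g = (ε : GK s)⁻¹ * (δ⁻¹ * g) := by group
  rw [e]
  exact h2

theorem s_E0 : S_E0 := by
  intro p hp s d hS ι₀ 𝓛 hL
  have hn := hL.normal
  have hNL : Nf p 𝓛 ≤ 𝓛 := nf_le (te_L hL)
  have hcl : IsClosed (Nf p 𝓛 : Set (GK s)) := isClosed_Nf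
  have hmem : ∀ σ : GK s, (QuotientGroup.mk σ : Gs p 𝓛) ∈ Pg p 𝓛 ↔ σ ∈ 𝓛 := by
    intro σ
    constructor
    · rintro ⟨τ, hτ, h⟩
      have h1 : (QuotientGroup.mk τ : Gs p 𝓛) = QuotientGroup.mk σ := h
      have h2 := QuotientGroup.eq.1 h1
      have e : σ = τ * (τ⁻¹ * σ) := by group
      rw [e]
      exact mul_mem hτ (hNL h2)
    · intro h
      exact ⟨σ, h, rfl⟩
  have hcomap : (Pg p 𝓛).comap (QuotientGroup.mk' (Nf p 𝓛)) = 𝓛 := by
    ext σ
    rw [Subgroup.mem_comap]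
    exact hmem σ
  have hdens : ∀ U : Subgroup (GK s), IsOpen (U : Set (GK s)) → Nf p 𝓛 ≤ U → ∀ g : GK s,
      ∃ δ ∈ DDs ι₀, δ⁻¹ * g ∈ U := by
    intro U hU hN g
    obtain ⟨N, hTE, hNU⟩ := exists_te hL U hU hN
    obtain ⟨δ, hδ, h⟩ := dens_te hL hTE g
    exact ⟨δ, hδ, hNU h⟩
  refine ⟨inferInstance, ?_, hNL, ?_, ?_, ?_, hmem, ?_, exists_te hL,
    fun U hU hN hUL φ hφ hr => clause10 hL U hU hN hUL φ hφ hr, hdens, ?_⟩
  · haveI := hcl
    infer_instance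
  · exact QuotientGroup.isOpenMap_coe _ hL.isOpen
  · exact hn.map _ (QuotientGroup.mk'_surjective _)
  · rw [← Subgroup.index_comap_of_surjective (Pg p 𝓛) (QuotientGroup.mk'_surjective (Nf p 𝓛)),
      hcomap]
  · intro U hU hUP
    have ho : IsOpen ((U.comap (QuotientGroup.mk' (Nf p 𝓛)) : Subgroup (GK s)) : Set (GK s)) :=
      hU.preimage continuous_quotient_mk'
    have hle : Nf p 𝓛 ≤ U.comap (QuotientGroup.mk' (Nf p 𝓛)) := by
      intro x hx
      rw [Subgroup.mem_comap]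
      have : QuotientGroup.mk' (Nf p 𝓛) x = 1 := (QuotientGroup.eq_one_iff x).2 hx
      rw [this]
      exact one_mem U
    obtain ⟨N, hN, hNU⟩ := exists_te hL _ ho hle
    obtain ⟨a, ha⟩ := hN.index
    have h1 := Subgroup.relIndex_dvd_of_le_left 𝓛 hNU
    rw [ha, Subgroup.relIndex_comap] at h1
    obtain ⟨b, -, hb⟩ := (Nat.dvd_prime_pow hp.out).1 h1
    exact ⟨b, hb⟩
  · intro g
    obtain ⟨r, hr, -, hrr⟩ := s_E1 p s d hS ι₀
    have hDc : IsCompact ((DDs ι₀ : Subgroup (GK s)) : Set (GK s)) := by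
      rw [← hrr, MonoidHom.coe_range]
      exact isCompact_range hr
    by_contra hcon
    push Not at hcon
    have : Nonempty {N : Subgroup (GK s) // TE p 𝓛 N} := ⟨⟨𝓛, te_L hL⟩⟩
    have key := hDc.elim_directed_family_closed
      (fun N : {N : Subgroup (GK s) // TE p 𝓛 N} =>
        {δ : GK s | δ⁻¹ * g ∈ (N : Subgroup (GK s))})
      (fun N => (Subgroup.isClosed_of_isOpen _ N.2.isOpen).preimage
        (continuous_inv.mul continuous_const)) ?_ ?_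
    · obtain ⟨N, hN'⟩ := key
      obtain ⟨δ, hδ, h⟩ := dens_te hL N.2 g
      have : δ ∈ ((DDs ι₀ : Subgroup (GK s)) : Set (GK s)) ∩ {δ : GK s | δ⁻¹ * g ∈ (N : Subgroup (GK s))} := ⟨hδ, h⟩
      rw [hN'] at this
      exact this
    · ext δ
      simp only [Set.mem_inter_iff, Set.mem_iInter, Set.mem_empty_iff_false,
        iff_false, not_and]
      intro hδ hall
      refine hcon δ hδ ?_
      rw [Nf, Subgroup.mem_sInf]
      intro N hN
      exact hall ⟨N, hN⟩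
    · intro N M
      exact ⟨⟨N ⊓ M, te_inf N.2 M.2⟩, fun x hx => hx.1, fun x hx => hx.2⟩

end Pool.Agent.L7h79.SG
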