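import Pool.Agent.L7h48.SG.Stm

/-!
# Project SG, job E1: the restriction homomorphism of the local Galois group
-/

set_option autoImplicit false

namespace Pool.Agent.L7h79.SG

open Pool.Agent.L7h48.SG
open Pool.Agent.Y715.Gi (QB KK GK i₀_mem gk_fix)
open Pool.Agent.Y715.Nr Pool.Agent.W237.RK
open Pool.Agent.Y715.Df (Cmp exists_cmp)
open Pool.Agent.Z384 (II DD DDs)

lemma cmp_unique {p : ℕ} [Fact p.Prime] {s : QB} {ι : QB →ₐ[ℚ] PadicAlgCl p} {τ : Au p}
    {σ σ' : GK s} (h : Cmp ι τ σ) (h' : Cmp ι τ σ') : σ = σ' := by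
  ext x
  refine ι.injective ?_
  exact (h x).symm.trans (h' x)

/-- the embedding of `s` is fixed by the local Galois group -/
lemma fix_s {p : ℕ} [Fact p.Prime] {s : QB} {d : ℕ} (hS : Spl p s d)
    (ι₀ : QB →ₐ[ℚ] PadicAlgCl p) (τ : Au p) : τ (ι₀ s) = ι₀ s := by
  obtain ⟨r, hr⟩ := hS.loc
  have h1 : (ι₀ s) ^ 2 = (algebraMap ℚ_[p] (PadicAlgCl p) r) ^ 2 := by
    rw [← map_pow, hS.sq, ← map_pow, hr]
    simp
  rcases sq_eq_sq_iff_eq_or_eq_neg.1 h1 with h | h
  · rw [h, AlgEquiv.commutes]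
  · rw [h, map_neg, AlgEquiv.commutes]

theorem s_E1 : S_E1 := by
  intro p _ s d hS ι₀
  have hfix : ∀ τ : Au p, τ (ι₀ s) = ι₀ s := fix_s hS ι₀
  have hex : ∀ τ : Au p, ∃ σ : GK s, Cmp ι₀ τ σ := fun τ => exists_cmp ι₀ τ (hfix τ)
  choose r hr using hex
  have hmul : ∀ τ τ', r (τ * τ') = r τ * r τ' := fun τ τ' =>
    cmp_unique (hr _) ((hr τ).mul (hr τ'))
  let R : Au p →* GK s := MonoidHom.mk' r hmul
  refine ⟨R, ?_, hr, ?_⟩
  · refine continuous_of_continuousAt_one R ?_
    rw [ContinuousAt, map_one]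
    intro N hN
    rw [krullTopology_mem_nhds_one_iff] at hN
    obtain ⟨E, hE, hEN⟩ := hN
    rw [Filter.mem_map, krullTopology_mem_nhds_one_iff]
    let b := Module.finBasis (KK s) E
    let T : Set (PadicAlgCl p) := Set.range (fun i => ι₀ ((b i : E) : QB))
    have hTf : T.Finite := Set.finite_range _
    refine ⟨IntermediateField.adjoin ℚ_[p] T, ?_, ?_⟩
    · have : Finite T := hTf
      exact IntermediateField.finiteDimensional_adjoin fun x _ =>
        (Algebra.IsAlgebraic.isAlgebraic x).isIntegral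
    · intro τ hτ
      apply hEN
      rw [SetLike.mem_coe, IntermediateField.mem_fixingSubgroup_iff] at hτ
      rw [SetLike.mem_coe, IntermediateField.mem_fixingSubgroup_iff]
      have hb : ∀ i, R τ ((b i : E) : QB) = ((b i : E) : QB) := by
        intro i
        refine ι₀.injective ?_
        have h1 := hr τ ((b i : E) : QB)
        refine h1.symm.trans ?_
        exact hτ _ (IntermediateField.subset_adjoin _ _ ⟨i, rfl⟩)
      intro x hx
      have hx' := congrArg (fun y : E => (y : QB)) (b.sum_repr ⟨x, hx⟩)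
      simp only at hx'
      rw [← hx']
      rw [IntermediateField.coe_sum, map_sum]
      refine Finset.sum_congr rfl fun i _ => ?_
      rw [IntermediateField.coe_smul, Algebra.smul_def, map_mul, hb, AlgEquiv.commutes]
  · ext σ
    constructor
    · rintro ⟨τ, rfl⟩
      exact ⟨τ, hr τ⟩
    · rintro ⟨τ, hτ⟩
      exact ⟨τ, cmp_unique (hr τ) hτ⟩

end Pool.Agent.L7h79.SG
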