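import Pool.Agent.L7h79.SG.G1

/-!
# Project SG, job G2: the characters lift to Kummer cocycles
-/

set_option autoImplicit false

namespace Pool.Agent.L7h79.SG

open Pool.Agent.L7h48.SG
open Pool.Agent.Y715.Gi (QB KK GK)
open Pool.Agent.Y715.Nr Pool.Agent.W237.RK
open Pool.Agent.Z384 (II DD DDs)

variable {p : ℕ} [hp : Fact p.Prime]

/-- a `p`-th root -/
noncomputable def rt (p : ℕ) [hp : Fact p.Prime] (a : QB) : QB :=
  (IsAlgClosed.exists_pow_nat_eq a hp.out.pos).choose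

lemma rt_spec (a : QB) : rt p a ^ p = a :=
  (IsAlgClosed.exists_pow_nat_eq a hp.out.pos).choose_spec

/-- compatible roots of `b`, starting from the root `x` -/
noncomputable def ry (p : ℕ) [hp : Fact p.Prime] (b x : QB) : ℕ → QB
  | 0 => b
  | n + 1 => Nat.rec x (fun _ a => rt p a) n

lemma ry_zero (b x : QB) : ry p b x 0 = b := rfl

lemma ry_one (b x : QB) : ry p b x 1 = x := rfl

lemma ry_two (b x : QB) (n : ℕ) : ry p b x (n + 2) = rt p (ry p b x (n + 1)) := rfl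

lemma ry_root {b x : QB} (hx : x ^ p = b) (n : ℕ) : ry p b x (n + 1) ^ p = ry p b x n := by
  rcases n with _ | n
  · rw [ry_one, ry_zero, hx]
  · rw [ry_two, rt_spec]

lemma ry_pow {b x : QB} (hx : x ^ p = b) (n : ℕ) : ry p b x n ^ p ^ n = b := by
  induction n with
  | zero => rw [pow_zero, pow_one, ry_zero]
  | succ n ih => rw [pow_succ', pow_mul, ry_root hx, ih]

lemma ry_ne {b x : QB} (hx : x ^ p = b) (hb : b ≠ 0) (n : ℕ) : ry p b x n ≠ 0 := by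
  intro h
  have := ry_pow hx n
  rw [h, zero_pow (pow_ne_zero _ hp.out.ne_zero)] at this
  exact hb this.symm

lemma ry_pow' {b x : QB} (hx : x ^ p = b) (n : ℕ) : ry p b x (n + 1) ^ p ^ n = x := by
  induction n with
  | zero => rw [pow_zero, pow_one, ry_one]
  | succ n ih => rw [pow_succ', pow_mul, ry_root hx, ih]

/-- compatible roots of unity -/
noncomputable abbrev rz (p : ℕ) [hp : Fact p.Prime] (ζ : QB) : ℕ → QB := ry p 1 ζ

lemma rz_prim {ζ : QB} (hζ : IsPrimitiveRoot ζ p) (n : ℕ) : IsPrimitiveRoot (rz p ζ n) (p ^ n) := by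
  rcases n with _ | n
  · rw [pow_zero]
    exact IsPrimitiveRoot.one
  · have h1 : ¬ rz p ζ (n + 1) ^ p ^ n = 1 := by
      rw [ry_pow' hζ.pow_eq_one]
      exact hζ.ne_one hp.out.one_lt
    have h2 : rz p ζ (n + 1) ^ p ^ (n + 1) = 1 := ry_pow hζ.pow_eq_one (n + 1)
    have h3 : orderOf (rz p ζ (n + 1)) = p ^ (n + 1) := orderOf_eq_prime_pow h1 h2
    rw [← h3]
    exact IsPrimitiveRoot.orderOf _

/-- the relation between an automorphism and the value of the cocycle -/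
def Rel (p : ℕ) [hp : Fact p.Prime] {s : QB} (ζ b x : QB) (σ : GK s) (κ : ℤ_[p]) : Prop :=
  ∀ n : ℕ, σ (ry p b x n) = rz p ζ n ^ (PadicInt.toZModPow n κ).val * ry p b x n

section

variable {s : QB} {ζ b x : QB} (hζ : IsPrimitiveRoot ζ p) (hx : x ^ p = b) (hb0 : b ≠ 0)

include hζ hx hb0

lemma rel_red {σ τ : GK s} {κ l : ℤ_[p]} (h : Rel p ζ b x σ κ) (h' : Rel p ζ b x τ l) {n : ℕ}
    (he : σ (ry p b x n) = τ (ry p b x n)) :
    PadicInt.toZModPow n κ = PadicInt.toZModPow n l := by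
  refine val_inj (rz_prim hζ n) ?_
  have h1 := h n
  rw [he, h' n] at h1
  exact (mul_right_cancel₀ (ry_ne hx hb0 n) h1).symm

lemma rel_unique {σ : GK s} {κ l : ℤ_[p]} (h : Rel p ζ b x σ κ) (h' : Rel p ζ b x σ l) : κ = l :=
  PadicInt.ext_of_toZModPow.1 fun _ => rel_red hζ hx hb0 h h' rfl

lemma rel_exists {σ : GK s} (hb : σ b = b) : ∃ κ : ℤ_[p], Rel p ζ b x σ κ := by
  let t : ℕ → Set ℤ_[p] := fun n =>
    {κ | σ (ry p b x n) = rz p ζ n ^ (PadicInt.toZModPow n κ).val * ry p b x n}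
  have hcl : ∀ n, IsClosed (t n) := by
    intro n
    have hc : IsLocallyConstant fun κ : ℤ_[p] => PadicInt.toZModPow n κ := by
      rw [IsLocallyConstant.iff_eventually_eq]
      intro κ
      have hp0 : (0 : ℝ) < p := by exact_mod_cast hp.out.pos
      have hpos : (0 : ℝ) < (p : ℝ) ^ (1 - (n : ℤ)) := by positivity
      filter_upwards [Metric.ball_mem_nhds κ hpos] with l hl
      have h1 : l - κ ∈ RingHom.ker (PadicInt.toZModPow (p := p) n) := by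
        rw [PadicInt.ker_toZModPow, ← PadicInt.norm_le_pow_iff_mem_span_pow,
          PadicInt.norm_le_pow_iff_norm_lt_pow_add_one]
        rw [Metric.mem_ball, dist_eq_norm] at hl
        convert hl using 2
        ring
      rw [RingHom.mem_ker, map_sub, sub_eq_zero] at h1
      exact h1
    have h2 : IsClosed ((fun κ : ℤ_[p] => PadicInt.toZModPow n κ) ⁻¹'
        {a | σ (ry p b x n) = rz p ζ n ^ a.val * ry p b x n}) := by
      rw [← isOpen_compl_iff, ← Set.preimage_compl]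
      exact hc _
    exact h2
  have hne : ∀ n, (t n).Nonempty := by
    intro n
    have h1 : (σ (ry p b x n) / ry p b x n) ^ p ^ n = 1 := by
      rw [div_pow, ← map_pow, ry_pow hx, hb, div_self hb0]
    obtain ⟨i, -, hi⟩ := (rz_prim hζ n).eq_pow_of_pow_eq_one h1
    refine ⟨(i : ℤ_[p]), ?_⟩
    show σ (ry p b x n) = rz p ζ n ^ (PadicInt.toZModPow n (i : ℤ_[p])).val * ry p b x n
    rw [map_natCast, pow_cast (rz_prim hζ n).pow_eq_one, hi, div_mul_cancel₀ _ (ry_ne hx hb0 n)]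
  have hanti : ∀ n, t (n + 1) ⊆ t n := by
    intro n κ hκ
    have h1 : σ (ry p b x (n + 1)) =
      rz p ζ (n + 1) ^ (PadicInt.toZModPow (n + 1) κ).val * ry p b x (n + 1) := hκ
    show σ (ry p b x n) = rz p ζ n ^ (PadicInt.toZModPow n κ).val * ry p b x n
    rw [← ry_root hx n, map_pow, h1, mul_pow, ← pow_mul, mul_comm _ p, pow_mul,
      ry_root hζ.pow_eq_one]
    congr 1
    rw [← PadicInt.cast_toZModPow n (n + 1) (Nat.le_succ n), ← ZMod.natCast_val,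
      pow_cast (rz_prim hζ n).pow_eq_one]
  obtain ⟨κ, hκ⟩ := IsCompact.nonempty_iInter_of_sequence_nonempty_isCompact_isClosed t hanti hne
    (hcl 0).isCompact hcl
  exact ⟨κ, fun n => Set.mem_iInter.1 hκ n⟩

omit hx hb0 in
lemma rel_mul {χ : GK s → ℤ_[p]} (hχ : IsCyc p χ) {σ τ : GK s} {κ l : ℤ_[p]}
    (h : Rel p ζ b x σ κ) (h' : Rel p ζ b x τ l) : Rel p ζ b x (σ * τ) (κ + χ σ * l) := by
  intro n
  have h1 := (rz_prim hζ n).pow_eq_one
  rw [AlgEquiv.mul_apply, h' n, map_mul, map_pow, h n, hχ σ n _ h1, map_add, map_mul,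
    pow_add_val h1, pow_add, pow_mul_val h1, pow_mul]
  ring

/-- the subgroup `Nf` fixes the roots of the `p`-unit `b` -/
lemma nf_fix_ry (hE0 : S_E0) (hD : S_D3) {d : ℕ} (hS : Spl p s d) {ι₀ : QB →ₐ[ℚ] PadicAlgCl p}
    {𝓛 : Subgroup (GK s)} (hL : Lev p 𝓛 ι₀) (hb : ∀ σ ∈ 𝓛, σ b = b) (hu : PUnit p b) (n : ℕ) :
    ∀ τ ∈ Nf p 𝓛, τ (ry p b x n) = ry p b x n := by
  obtain ⟨-, -, hN𝓛, -, -, -, -, -, -, h4, -⟩ := hE0 p s d hS ι₀ 𝓛 hL
  induction n with
  | zero => exact fun τ hτ => hb τ (hN𝓛 hτ)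
  | succ n ih =>
    set w := ry p b x (n + 1) with hw
    have hw0 : w ≠ 0 := ry_ne hx hb0 (n + 1)
    have hw2 : w ^ p = ry p b x n := ry_root hx n
    let U : Subgroup (GK s) := 𝓛 ⊓ MulAction.stabilizer (GK s) (ry p b x n)
    have hU : ∀ σ : GK s, σ ∈ U ↔ σ ∈ 𝓛 ∧ σ (ry p b x n) = ry p b x n := fun σ => by
      rw [Subgroup.mem_inf, MulAction.mem_stabilizer_iff, AlgEquiv.smul_def]
    have hUo : IsOpen (U : Set (GK s)) := by
      rw [Subgroup.coe_inf]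
      exact hL.isOpen.inter (stabilizer_isOpen_of_isIntegral _)
    have hNU : Nf p 𝓛 ≤ U := fun τ hτ => (hU τ).2 ⟨hN𝓛 hτ, ih τ hτ⟩
    have hi : ∀ σ : GK s, ∃ i : ℕ, (σ ∈ U → i < p ∧ σ w = ζ ^ i * w) ∧ (σ ∉ U → i = 0) := by
      intro σ
      by_cases hσ : σ ∈ U
      · have h1 : (σ w / w) ^ p = 1 := by
          rw [div_pow, ← map_pow, hw2, ((hU σ).1 hσ).2, div_self (ry_ne hx hb0 n)]
        obtain ⟨i, hi, hi'⟩ := hζ.eq_pow_of_pow_eq_one h1
        refine ⟨i, fun _ => ⟨hi, ?_⟩, fun h => absurd hσ h⟩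
        rw [hi', div_mul_cancel₀ _ hw0]
      · exact ⟨0, fun h => absurd h hσ, fun _ => rfl⟩
    choose i hi1 hi2 using hi
    have hinj : ∀ σ ∈ U, ∀ j : ℕ, σ w = ζ ^ j * w → (i σ : ZMod p) = j := by
      intro σ hσ j hj
      have h1 := hi1 σ hσ
      rw [h1.2] at hj
      have h2 := mul_right_cancel₀ hw0 hj
      have h3 : ζ ^ i σ = ζ ^ (j % p) := by
        rw [h2]
        exact pow_eq_pow_mod _ hζ.pow_eq_one
      have h4 := hζ.pow_inj h1.1 (Nat.mod_lt _ hp.out.pos) h3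
      rw [h4, ZMod.natCast_mod]
    let φ : GK s → ZMod p := fun σ => (i σ : ZMod p)
    have hφ : φ ∈ HP p U := by
      refine ⟨?_, ?_, ?_⟩
      · rw [IsLocallyConstant.iff_eventually_eq]
        intro σ
        by_cases hσ : σ ∈ U
        · filter_upwards [(stab_open (σ : GK s) w).mem_nhds rfl, hUo.mem_nhds hσ] with τ hτ hτU
          exact hinj τ hτU (i σ) (by
            have h1 : τ w = σ w := hτ
            rw [h1]
            exact (hi1 σ hσ).2)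
        · have hcl : IsClosed (U : Set (GK s)) := U.isClosed_of_isOpen hUo
          filter_upwards [hcl.isOpen_compl.mem_nhds hσ] with τ hτ
          show (i τ : ZMod p) = (i σ : ZMod p)
          rw [hi2 σ hσ, hi2 τ hτ]
      · intro σ hσ τ hτ
        show (i (σ * τ) : ZMod p) = (i σ : ZMod p) + (i τ : ZMod p)
        rw [← Nat.cast_add]
        refine hinj _ (U.mul_mem hσ hτ) _ ?_
        have hζσ : σ ζ = ζ := hL.mu σ ((hU σ).1 hσ).1 ζ hζ.pow_eq_one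
        rw [AlgEquiv.mul_apply, (hi1 τ hτ).2, map_mul, map_pow, hζσ, (hi1 σ hσ).2]
        ring
      · intro σ hσ
        show (i σ : ZMod p) = 0
        rw [hi2 σ hσ, Nat.cast_zero]
    have h5 := h4 U hUo hNU inf_le_left φ hφ (fun σ hσ hR => by
      obtain ⟨q, hq, ι, hqp, hσ'⟩ := hR
      have h6 : σ w = w := by
        refine hD p s q ι hqp σ hσ' w (n + 1) ?_ ?_
        · rw [hw, ry_pow hx]
          exact hu
        · rw [hw, ry_pow hx]
          exact hb σ ((hU σ).1 hσ).1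
      show (i σ : ZMod p) = 0
      rw [hinj σ hσ 0 (by rw [pow_zero, one_mul]; exact h6), Nat.cast_zero])
    intro τ hτ
    have h6 : (i τ : ZMod p) = 0 := h5 τ hτ
    have h7 := hi1 τ (hNU hτ)
    rw [ZMod.natCast_eq_zero_iff] at h6
    have h8 : i τ = 0 := Nat.eq_zero_of_dvd_of_lt h6 h7.1
    have h9 := h7.2
    rw [h8, pow_zero, one_mul] at h9
    exact h9

end

theorem s_G2 (hE0 : S_E0) (hE2 : S_E2) (hD : S_D3) : S_G2 := by
  intro p _ s d hS ι₀ 𝓛 hL χ hχ φ hφ hφN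
  classical
  obtain ⟨-, -, hN𝓛, -⟩ := hE0 p s d hS ι₀ 𝓛 hL
  obtain ⟨ζ, hζ'⟩ := exists_prim p 1
  have hζ : IsPrimitiveRoot ζ p := by
    have := hζ'
    rwa [pow_one] at this
  obtain ⟨x, hu, hφx⟩ := (hE2 p s d hS ι₀ 𝓛 hL).2.2 ζ hζ 𝓛 hL.isOpen hN𝓛 le_rfl φ hφ hφN
  obtain ⟨b, hx⟩ : ∃ b, x ^ p = b := ⟨_, rfl⟩
  rw [hx] at hu
  have hb0 : b ≠ 0 := hu.1
  have hx0 : x ≠ 0 := by
    rintro rfl
    rw [zero_pow (Fact.out : p.Prime).ne_zero] at hx
    exact hb0 hx.symm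
  have hb : ∀ σ ∈ 𝓛, σ b = b := by
    intro σ hσ
    rw [← hx, map_pow, hφx σ hσ, mul_pow, ← pow_mul, mul_comm _ p, pow_mul, hζ.pow_eq_one,
      one_pow, one_mul]
  have hex : ∀ σ : GK s, ∃ κ : ℤ_[p], (σ ∈ 𝓛 → Rel p ζ b x σ κ) ∧ (σ ∉ 𝓛 → κ = 0) := by
    intro σ
    by_cases hσ : σ ∈ 𝓛
    · obtain ⟨κ, hκ⟩ := rel_exists hζ hx hb0 (hb σ hσ)
      exact ⟨κ, fun _ => hκ, fun h => absurd hσ h⟩
    · exact ⟨0, fun h => absurd h hσ, fun _ => rfl⟩
  choose K hK hK0 using hex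
  have hmul : ∀ σ ∈ 𝓛, ∀ τ ∈ 𝓛, K (σ * τ) = K σ + χ σ * K τ := fun σ hσ τ hτ =>
    rel_unique hζ hx hb0 (hK _ (𝓛.mul_mem hσ hτ)) (rel_mul hζ hχ (hK σ hσ) (hK τ hτ))
  have hnf : ∀ τ ∈ Nf p 𝓛, K τ = 0 := by
    intro τ hτ
    refine rel_unique hζ hx hb0 (hK τ (hN𝓛 hτ)) fun n => ?_
    rw [nf_fix_ry hζ hx hb0 hE0 hD hS hL hb hu n τ hτ, map_zero, ZMod.val_zero, pow_zero, one_mul]
  refine ⟨K, ?_, hmul, ?_, ?_⟩
  · refine cont_of K fun m σ => ?_
    by_cases hσ : σ ∈ 𝓛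
    · filter_upwards [(stab_open σ (ry p b x m)).mem_nhds rfl, hL.isOpen.mem_nhds hσ] with τ hτ hτL
      exact rel_red hζ hx hb0 (hK τ hτL) (hK σ hσ) hτ
    · have hcl : IsClosed (𝓛 : Set (GK s)) := 𝓛.isClosed_of_isOpen hL.isOpen
      filter_upwards [hcl.isOpen_compl.mem_nhds hσ] with τ hτ
      rw [hK0 σ hσ, hK0 τ hτ]
  · intro σ hσ
    have h3 := hK σ hσ 1
    rw [ry_one, hφx σ hσ, show rz p ζ 1 = ζ from rfl] at h3
    have h4 := mul_right_cancel₀ hx0 h3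
    have h5 := hζ.pow_inj (ZMod.val_lt (φ σ)) (by
      have h7 := ZMod.val_lt (PadicInt.toZModPow 1 (K σ))
      exact lt_of_lt_of_eq h7 (pow_one p)) h4
    have h6 : PadicInt.toZModPow 1 (K σ) = PadicInt.toZModPow 1 (((φ σ).val : ℕ) : ℤ_[p]) := by
      rw [map_natCast, h5, ZMod.natCast_val, ZMod.cast_id]
    rw [toZMod_eq_of h6, map_natCast, ZMod.natCast_val, ZMod.cast_id]
  · intro σ τ hτ
    by_cases hσ : σ ∈ 𝓛
    · rw [hmul σ hσ τ (hN𝓛 hτ), hnf τ hτ, mul_zero, add_zero]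
    · have h1 : σ * τ ∉ 𝓛 := by
        intro h
        exact hσ ((𝓛.mul_mem_cancel_right (hN𝓛 hτ)).1 h)
      rw [hK0 σ hσ, hK0 _ h1]

end Pool.Agent.L7h79.SG
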