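import Pool.Agent.L7h48.SG.Stm2

/-!
# Project SG, job LO: the local computation in `ℚ_3(√-3)`
-/

set_option autoImplicit false

namespace Pool.Agent.L7h79.SG.LO

open Pool.Agent.L7h48.SG


lemma n3 : ‖(3 : ℚ_[3])‖ = 1 / 3 := by
  have := @Padic.norm_p 3 _
  simpa using this

lemma npow {x : ℚ_[3]} (hx : x ≠ 0) : ∃ k : ℤ, ‖x‖ = (3 : ℝ) ^ k := by
  refine ⟨-x.valuation, ?_⟩
  have := Padic.norm_eq_zpow_neg_valuation hx
  simpa using this

lemma le_third {x : ℚ_[3]} (h : ‖x‖ < 1) : ‖x‖ ≤ 1 / 3 := by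
  rcases eq_or_ne x 0 with rfl | hx
  · simp
  · obtain ⟨k, hk⟩ := npow hx
    rw [hk] at h ⊢
    have h1 : k < 0 := by
      by_contra h2
      push Not at h2
      have := one_le_zpow₀ (by norm_num : (1 : ℝ) ≤ 3) h2
      linarith
    calc (3 : ℝ) ^ k ≤ 3 ^ (-1 : ℤ) := zpow_le_zpow_right₀ (by norm_num) (by omega)
      _ = 1 / 3 := by norm_num

lemma ge_one {x : ℚ_[3]} (h : 1 / 3 < ‖x‖) : 1 ≤ ‖x‖ := by
  by_contra h1
  push Not at h1
  have := le_third h1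
  linarith

/-- Fermat -/
lemma fermat {x : ℚ_[3]} (h : ‖x‖ ≤ 1) : ‖x ^ 3 - x‖ ≤ 1 / 3 := by
  refine le_third ?_
  obtain ⟨y, rfl⟩ : ∃ y : ℤ_[3], (y : ℚ_[3]) = x := ⟨⟨x, h⟩, rfl⟩
  have h1 : PadicInt.toZMod (y ^ 3 - y) = 0 := by
    rw [map_sub, map_pow]
    have : ∀ z : ZMod 3, z ^ 3 - z = 0 := by decide
    exact this _
  have h2 : y ^ 3 - y ∈ RingHom.ker (PadicInt.toZMod (p := 3)) := h1
  rw [PadicInt.ker_toZMod, IsLocalRing.mem_maximalIdeal, PadicInt.mem_nonunits] at h2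
  have h3 : ((y ^ 3 - y : ℤ_[3]) : ℚ_[3]) = (y : ℚ_[3]) ^ 3 - y := by push_cast; rfl
  rw [← h3]
  exact h2

lemma sq_sub_one {x : ℚ_[3]} (h : ‖x‖ = 1) : ‖x ^ 2 - 1‖ ≤ 1 / 3 := by
  have h1 := fermat h.le
  have e : x ^ 3 - x = x * (x ^ 2 - 1) := by ring
  rw [e, norm_mul, h, one_mul] at h1
  exact h1

lemma sub_le {x y : ℚ_[3]} {c : ℝ} (hx : ‖x‖ ≤ c) (hy : ‖y‖ ≤ c) : ‖x - y‖ ≤ c := by
  have := Padic.nonarchimedean x (-y)
  rw [norm_neg, ← sub_eq_add_neg] at this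
  exact this.trans (max_le hx hy)

lemma add_le {x y : ℚ_[3]} {c : ℝ} (hx : ‖x‖ ≤ c) (hy : ‖y‖ ≤ c) : ‖x + y‖ ≤ c :=
  (Padic.nonarchimedean x y).trans (max_le hx hy)

/-- the norm of a perturbed unit -/
lemma unit_add {x y : ℚ_[3]} (hx : ‖x‖ = 1) (hy : ‖y‖ < 1) : ‖x + y‖ = 1 := by
  have h := Padic.add_eq_max_of_ne (q := x) (r := y) (by rw [hx]; exact hy.ne')
  rw [h, hx]
  exact max_eq_left hy.le

lemma n2 : ‖(2 : ℚ_[3])‖ = 1 := by
  have e : (2 : ℚ_[3]) = -1 + 3 := by norm_num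
  rw [e]
  exact unit_add (by rw [norm_neg, norm_one]) (by rw [n3]; norm_num)

lemma six {x : ℚ_[3]} (h : ‖x‖ = 1) : ‖x ^ 6 - 1‖ ≤ 1 / 9 := by
  have h1 := sq_sub_one h
  have e : x ^ 6 - 1 = (x ^ 2 - 1) * ((x ^ 2 - 1) * (x ^ 2 + 2) + 3) := by ring
  rw [e, norm_mul]
  have h2 : ‖(x ^ 2 - 1) * (x ^ 2 + 2) + 3‖ ≤ 1 / 3 := by
    refine add_le ?_ n3.le
    rw [norm_mul]
    have h3 : ‖x ^ 2 + 2‖ ≤ 1 := add_le (by rw [norm_pow, h, one_pow]) n2.le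
    calc ‖x ^ 2 - 1‖ * ‖x ^ 2 + 2‖ ≤ 1 / 3 * 1 := by gcongr
      _ = 1 / 3 := by norm_num
  calc ‖x ^ 2 - 1‖ * ‖(x ^ 2 - 1) * (x ^ 2 + 2) + 3‖ ≤ 1 / 3 * (1 / 3) := by gcongr
    _ = 1 / 9 := by norm_num

/-- the square of a cube is not `a ^ (4 i)` -/
lemma first_aux {a b n : ℚ_[3]} (hab : a + b = 2) (hm : a * b = 3) (ha : ‖a‖ = 1) (hb : ‖b‖ = 1 / 3)
    {i j : ℕ} (hi : i < 3) (hj : j < 3) (h : n ^ 3 = a ^ (2 * i) * b ^ (2 * j)) :
    i = 0 ∧ j = 0 := by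
  have hb0 : b ≠ 0 := by
    rintro rfl
    rw [norm_zero] at hb
    norm_num at hb
  have ha0 : a ≠ 0 := by
    rintro rfl
    rw [norm_zero] at ha
    norm_num at ha
  have hn0 : n ≠ 0 := by
    rintro rfl
    have : a ^ (2 * i) * b ^ (2 * j) ≠ 0 := mul_ne_zero (pow_ne_zero _ ha0) (pow_ne_zero _ hb0)
    exact this (by rw [← h]; norm_num)
  obtain ⟨k, hk⟩ := npow hn0
  have h1 := congrArg norm h
  rw [norm_pow, norm_mul, norm_pow, norm_pow, ha, hb, one_pow, one_mul, hk, ← zpow_natCast,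
    ← zpow_mul] at h1
  have h2 : (1 / 3 : ℝ) ^ (2 * j) = (3 : ℝ) ^ (-(2 * j : ℕ) : ℤ) := by
    rw [zpow_neg, zpow_natCast, one_div, inv_pow]
  rw [h2] at h1
  have h3 := zpow_right_injective₀ (by norm_num : (0 : ℝ) < 3) (by norm_num) h1
  push_cast at h3
  have hj0 : j = 0 := by omega
  have hk0 : k = 0 := by omega
  refine ⟨?_, hj0⟩
  rw [hk0, zpow_zero] at hk
  rw [hj0, mul_zero, pow_zero, mul_one] at h
  have h4 := six hk
  have e : n ^ 6 = a ^ (4 * i) := by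
    have : n ^ 6 = (n ^ 3) ^ 2 := by ring
    rw [this, h, ← pow_mul]
    congr 1
    ring
  rw [e] at h4
  -- the norm of a ^ 4 - 1
  have h5 := sq_sub_one ha
  have q1 : ‖a - 1‖ = 1 := by
    have : a - 1 = 1 + -b := by linear_combination hab
    rw [this]
    exact unit_add norm_one (by rw [norm_neg, hb]; norm_num)
  have q2 : ‖a + 1‖ = 1 / 3 := by
    have : a + 1 = b * (1 + -b) := by linear_combination (b + 1) * hab - hm
    rw [this, norm_mul, unit_add norm_one (by rw [norm_neg, hb]; norm_num), hb, mul_one]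
  have q3 : ‖a ^ 2 + 1‖ = 1 := by
    have : a ^ 2 + 1 = 2 + (a ^ 2 - 1) := by ring
    rw [this]
    exact unit_add n2 (lt_of_le_of_lt h5 (by norm_num))
  have q4 : ‖a ^ 4 - 1‖ = 1 / 3 := by
    have : a ^ 4 - 1 = (a - 1) * (a + 1) * (a ^ 2 + 1) := by ring
    rw [this, norm_mul, norm_mul, q1, q2, q3]
    norm_num
  by_contra hi0
  have hi' : i = 1 ∨ i = 2 := by omega
  rcases hi' with rfl | rfl
  · rw [mul_one, q4] at h4
    norm_num at h4
  · have q5 : ‖a ^ 4 + 1‖ = 1 := by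
      have : a ^ 4 + 1 = 2 + (a ^ 4 - 1) := by ring
      rw [this]
      exact unit_add n2 (by rw [q4]; norm_num)
    have : a ^ (4 * 2) - 1 = (a ^ 4 - 1) * (a ^ 4 + 1) := by ring
    rw [this, norm_mul, q4, q5] at h4
    norm_num at h4

lemma first {t n : ℚ_[3]} (ht : t ^ 2 = -2) {i j : ℤ}
    (h : n ^ 3 = (1 + t) ^ (2 * i) * (1 - t) ^ (2 * j)) : 3 ∣ i ∧ 3 ∣ j := by
  have hm : (1 + t) * (1 - t) = 3 := by linear_combination -ht
  have hs : (1 + t) + (1 - t) = 2 := by ring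
  have ha0 : 1 + t ≠ 0 := by
    intro h0; rw [h0, zero_mul] at hm; norm_num at hm
  have hb0 : 1 - t ≠ 0 := by
    intro h0; rw [h0, mul_zero] at hm; norm_num at hm
  -- reduce the exponents
  obtain ⟨n', hn'⟩ : ∃ n' : ℚ_[3], n' ^ 3
      = (1 + t) ^ (2 * (i % 3).toNat) * (1 - t) ^ (2 * (j % 3).toNat) := by
    refine ⟨n * (1 + t) ^ (-(2 * (i / 3))) * (1 - t) ^ (-(2 * (j / 3))), ?_⟩
    rw [mul_pow, mul_pow, h]
    have e1 : ((2 * (i % 3).toNat : ℕ) : ℤ) = 2 * (i % 3) := by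
      push_cast
      rw [Int.toNat_of_nonneg (Int.emod_nonneg _ (by norm_num))]
    have e2 : ((2 * (j % 3).toNat : ℕ) : ℤ) = 2 * (j % 3) := by
      push_cast
      rw [Int.toNat_of_nonneg (Int.emod_nonneg _ (by norm_num))]
    rw [← zpow_natCast (1 + t) (2 * (i % 3).toNat), ← zpow_natCast (1 - t) (2 * (j % 3).toNat),
      e1, e2, ← zpow_natCast _ 3, ← zpow_natCast _ 3, ← zpow_mul, ← zpow_mul]
    have e3 : ∀ (x y z w : ℚ_[3]), x * y * z * w = (x * z) * (y * w) := by intros; ring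
    rw [e3, ← zpow_add₀ ha0, ← zpow_add₀ hb0]
    congr 2
    · have := Int.emod_add_mul_ediv i 3
      push_cast
      omega
    · have := Int.emod_add_mul_ediv j 3
      push_cast
      omega
  have hi : (i % 3).toNat < 3 := by omega
  have hj : (j % 3).toNat < 3 := by omega
  have hla : ‖1 + t‖ ≤ 1 ∧ ‖1 - t‖ ≤ 1 := by
    have ht1 : ‖t‖ ≤ 1 := by
      have h1 := congrArg norm ht
      rw [norm_pow, norm_neg, n2] at h1
      nlinarith [norm_nonneg t]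
    exact ⟨add_le (by rw [norm_one]) ht1, sub_le (by rw [norm_one]) ht1⟩
  have hprod : ‖1 + t‖ * ‖1 - t‖ = 1 / 3 := by rw [← norm_mul, hm, n3]
  have hdich : (‖1 + t‖ = 1 ∧ ‖1 - t‖ = 1 / 3) ∨ (‖1 - t‖ = 1 ∧ ‖1 + t‖ = 1 / 3) := by
    by_cases h1 : ‖1 + t‖ < 1
    · right
      have h2 := le_third h1
      have h3 : ‖1 - t‖ = 1 := by nlinarith [norm_nonneg (1 + t), norm_nonneg (1 - t)]
      rw [h3, mul_one] at hprod
      exact ⟨h3, hprod⟩
    · left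
      have h3 : ‖1 + t‖ = 1 := le_antisymm hla.1 (not_lt.1 h1)
      rw [h3, one_mul] at hprod
      exact ⟨h3, hprod⟩
  rcases hdich with ⟨h1, h2⟩ | ⟨h1, h2⟩
  · have := first_aux hs hm h1 h2 hi hj hn'
    omega
  · have := first_aux (by rw [add_comm]; exact hs) (by rw [mul_comm]; exact hm) h1 h2 hj hi
      (by rw [hn']; ring)
    omega

/-! ### Coordinates -/

/-- the numbers `x + y W` -/
def Pq (W z : (PadicAlgCl 3)) : Prop := ∃ x y : ℚ_[3], z = (algebraMap ℚ_[3] (PadicAlgCl 3) (x)) + (algebraMap ℚ_[3] (PadicAlgCl 3) (y)) * W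

section coord

variable {W : (PadicAlgCl 3)} (hW : W ^ 2 = -3)

include hW

lemma Pq.mul {z z' : (PadicAlgCl 3)} (h : Pq W z) (h' : Pq W z') : Pq W (z * z') := by
  obtain ⟨x, y, rfl⟩ := h
  obtain ⟨x', y', rfl⟩ := h'
  refine ⟨x * x' - 3 * (y * y'), x * y' + x' * y, ?_⟩
  simp only [map_add, map_mul, map_sub, map_ofNat, map_neg, map_pow, map_div₀, map_one, map_zero]
  linear_combination (algebraMap ℚ_[3] (PadicAlgCl 3) (y)) * (algebraMap ℚ_[3] (PadicAlgCl 3) (y')) * hW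

lemma Pq.zpow {z : (PadicAlgCl 3)} (h : Pq W z) (h' : Pq W z⁻¹) (n : ℤ) : Pq W (z ^ n) := by
  have hnat : ∀ {w : (PadicAlgCl 3)}, Pq W w → ∀ k : ℕ, Pq W (w ^ k) := by
    intro w hw k
    induction k with
    | zero => exact ⟨1, 0, by simp only [map_add, map_mul, map_sub, map_ofNat, map_neg, map_pow, map_div₀, map_one, map_zero]; ring⟩
    | succ k ih =>
      rw [pow_succ]
      exact Pq.mul hW ih hw
  obtain ⟨k, rfl | rfl⟩ := n.eq_nat_or_neg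
  · rw [zpow_natCast]
    exact hnat h k
  · rw [zpow_neg, zpow_natCast, ← inv_pow]
    exact hnat h' k

lemma not_rat (x : ℚ_[3]) : (algebraMap ℚ_[3] (PadicAlgCl 3) (x)) ≠ W := by
  rintro rfl
  have h1 : x ^ 2 = -3 := by
    apply (algebraMap ℚ_[3] (PadicAlgCl 3)).injective
    simp only [map_add, map_mul, map_sub, map_ofNat, map_neg, map_pow, map_div₀, map_one, map_zero]
    exact hW
  have hx0 : x ≠ 0 := by
    rintro rfl
    norm_num at h1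
  obtain ⟨k, hk⟩ := npow hx0
  have h2 := congrArg norm h1
  rw [norm_pow, norm_neg, n3, hk, ← zpow_natCast, ← zpow_mul] at h2
  have h3 : (1 / 3 : ℝ) = (3 : ℝ) ^ (-1 : ℤ) := by norm_num
  rw [h3] at h2
  have h4 := zpow_right_injective₀ (by norm_num : (0 : ℝ) < 3) (by norm_num) h2
  push_cast at h4
  omega

lemma coord_eq {a b c d : ℚ_[3]} (h : (algebraMap ℚ_[3] (PadicAlgCl 3) (a)) + (algebraMap ℚ_[3] (PadicAlgCl 3) (b)) * W = (algebraMap ℚ_[3] (PadicAlgCl 3) (c)) + (algebraMap ℚ_[3] (PadicAlgCl 3) (d)) * W) : b = d := by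
  by_contra hne
  refine not_rat hW ((c - a) / (b - d)) ?_
  have h1 : (algebraMap ℚ_[3] (PadicAlgCl 3) (b)) - (algebraMap ℚ_[3] (PadicAlgCl 3) (d)) ≠ 0 := by
    intro h2
    rw [← map_sub, map_eq_zero] at h2
    exact hne (sub_eq_zero.1 h2)
  simp only [map_add, map_mul, map_sub, map_ofNat, map_neg, map_pow, map_div₀, map_one, map_zero]
  rw [div_eq_iff h1]
  linear_combination -h

lemma exists_conj : ∃ τ : Pool.Agent.Y715.Nr.Au 3, τ W = -W := by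
  have h := InfiniteGalois.mem_bot_iff_fixed (k := ℚ_[3]) (K := PadicAlgCl 3) W
  have h1 : ¬ ∀ τ : Pool.Agent.Y715.Nr.Au 3, τ W = W := by
    intro h2
    have h3 := h.2 h2
    rw [IntermediateField.mem_bot] at h3
    obtain ⟨x, hx⟩ := h3
    exact not_rat hW x hx
  push Not at h1
  obtain ⟨τ, hτ⟩ := h1
  refine ⟨τ, ?_⟩
  have h2 : (τ W) ^ 2 = W ^ 2 := by
    rw [← map_pow, hW, map_neg, map_ofNat]
  rcases sq_eq_sq_iff_eq_or_eq_neg.1 h2 with h3 | h3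
  · exact absurd h3 hτ
  · exact h3

end coord

lemma norm_t {t : ℚ_[3]} (ht : t ^ 2 = -2) : ‖t‖ = 1 := by
  have h1 := congrArg norm ht
  rw [norm_pow, norm_neg, n2] at h1
  nlinarith [norm_nonneg t]

/-- the shape of `(x + y W) ^ 3` of norm one -/
lemma cube_shape {W : (PadicAlgCl 3)} (hW : W ^ 2 = -3) {x y C D : ℚ_[3]}
    (hN : (x ^ 2 + 3 * y ^ 2) ^ 3 = 1) (h : ((algebraMap ℚ_[3] (PadicAlgCl 3) (x)) + (algebraMap ℚ_[3] (PadicAlgCl 3) (y)) * W) ^ 3 = (algebraMap ℚ_[3] (PadicAlgCl 3) (C)) + (algebraMap ℚ_[3] (PadicAlgCl 3) (D)) * W) :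
    ‖D‖ ≤ 1 / 9 := by
  have h1 : ((algebraMap ℚ_[3] (PadicAlgCl 3) (x)) + (algebraMap ℚ_[3] (PadicAlgCl 3) (y)) * W) ^ 3 = (algebraMap ℚ_[3] (PadicAlgCl 3) (x ^ 3 - 9 * x * y ^ 2))
      + (algebraMap ℚ_[3] (PadicAlgCl 3) (3 * (x ^ 2 * y - y ^ 3))) * W := by
    simp only [map_add, map_mul, map_sub, map_ofNat, map_neg, map_pow, map_div₀, map_one, map_zero]
    linear_combination (3 * (algebraMap ℚ_[3] (PadicAlgCl 3) (x)) * (algebraMap ℚ_[3] (PadicAlgCl 3) (y)) ^ 2 + (algebraMap ℚ_[3] (PadicAlgCl 3) (y)) ^ 3 * W) * hW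
  rw [h1] at h
  have h2 := coord_eq hW h
  rw [← h2]
  -- the norms of `x` and `y`
  have h3 : ‖x ^ 2 + 3 * y ^ 2‖ = 1 := by
    have h4 := congrArg norm hN
    rw [norm_pow, norm_one] at h4
    exact (pow_eq_one_iff_of_nonneg (norm_nonneg _) (by norm_num)).1 h4
  have hinj : ∀ a b : ℤ, (3 : ℝ) ^ a = (3 : ℝ) ^ b → a = b := fun a b h =>
    zpow_right_injective₀ (by norm_num : (0 : ℝ) < 3) (by norm_num) h
  have hxy : ‖x‖ = 1 ∧ ‖y‖ ≤ 1 := by
    rcases eq_or_ne y 0 with rfl | hy0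
    · rw [zero_pow (by norm_num), mul_zero, add_zero, norm_pow] at h3
      exact ⟨(pow_eq_one_iff_of_nonneg (norm_nonneg _) (by norm_num)).1 h3, by simp⟩
    rcases eq_or_ne x 0 with rfl | hx0
    · exfalso
      obtain ⟨k, hk⟩ := npow hy0
      rw [zero_pow (by norm_num), zero_add, norm_mul, norm_pow, n3, hk, ← zpow_natCast,
        ← zpow_mul] at h3
      have h5 : (1 / 3 : ℝ) = (3 : ℝ) ^ (-1 : ℤ) := by norm_num
      rw [h5, ← zpow_add₀ (by norm_num), ← zpow_zero (3 : ℝ)] at h3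
      have h6 := hinj _ _ h3
      push_cast at h6
      omega
    obtain ⟨k, hk⟩ := npow hy0
    obtain ⟨l, hl⟩ := npow hx0
    have h5 : (1 / 3 : ℝ) = (3 : ℝ) ^ (-1 : ℤ) := by norm_num
    have n1 : ‖x ^ 2‖ = (3 : ℝ) ^ (2 * l) := by
      rw [norm_pow, hl, ← zpow_natCast, ← zpow_mul]
      congr 1
      push_cast
      ring
    have n2' : ‖3 * y ^ 2‖ = (3 : ℝ) ^ (2 * k - 1) := by
      rw [norm_mul, norm_pow, n3, hk, ← zpow_natCast, ← zpow_mul, h5, ← zpow_add₀ (by norm_num)]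
      congr 1
      push_cast
      ring
    have hne : ‖x ^ 2‖ ≠ ‖3 * y ^ 2‖ := by
      rw [n1, n2']
      intro h6
      have h7 := hinj _ _ h6
      omega
    rw [Padic.add_eq_max_of_ne hne, n1, n2'] at h3
    have h8 : (3 : ℝ) ^ (2 * l) ≤ 1 := h3 ▸ le_max_left _ _
    have h9 : (3 : ℝ) ^ (2 * k - 1) ≤ 1 := h3 ▸ le_max_right _ _
    have hl0 : 2 * l ≤ 0 := by
      by_contra h10
      push Not at h10
      have := one_lt_zpow₀ (by norm_num : (1 : ℝ) < 3) h10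
      linarith
    have hk0 : 2 * k - 1 ≤ 0 := by
      by_contra h10
      push Not at h10
      have := one_lt_zpow₀ (by norm_num : (1 : ℝ) < 3) h10
      linarith
    have hl1 : l = 0 := by
      rcases max_choice ((3 : ℝ) ^ (2 * l)) ((3 : ℝ) ^ (2 * k - 1)) with h11 | h11
      · rw [h11, ← zpow_zero (3 : ℝ)] at h3
        have h6 := hinj _ _ h3
        omega
      · rw [h11, ← zpow_zero (3 : ℝ)] at h3
        have h6 := hinj _ _ h3
        omega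
    refine ⟨by rw [hl, hl1, zpow_zero], ?_⟩
    rw [hk]
    exact zpow_le_one_of_nonpos₀ (by norm_num) (by omega)
  obtain ⟨hx, hy⟩ := hxy
  have h4 : ‖x ^ 2 * y - y ^ 3‖ ≤ 1 / 3 := by
    have e : x ^ 2 * y - y ^ 3 = y * (x ^ 2 - 1) - (y ^ 3 - y) := by ring
    rw [e]
    refine sub_le ?_ (fermat hy)
    rw [norm_mul]
    have := sq_sub_one hx
    calc ‖y‖ * ‖x ^ 2 - 1‖ ≤ 1 * (1 / 3) := by gcongr
      _ = 1 / 3 := by norm_num
  rw [norm_mul, n3]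
  linarith

lemma second {t x y : ℚ_[3]} {W : (PadicAlgCl 3)} (ht : t ^ 2 = -2) (hW : W ^ 2 = -3) {l m : ℕ} (hl : l < 3)
    (hm : m < 3) (h : ((algebraMap ℚ_[3] (PadicAlgCl 3) (x)) + (algebraMap ℚ_[3] (PadicAlgCl 3) (y)) * W) ^ 3 = ((-1 + W) / 2) ^ l * ((algebraMap ℚ_[3] (PadicAlgCl 3) (t)) + W) ^ m) :
    l = 0 ∧ m = 0 := by
  have htO : (algebraMap ℚ_[3] (PadicAlgCl 3) (t)) ^ 2 = -2 := by
    rw [← map_pow, ht]
    simp only [map_add, map_mul, map_sub, map_ofNat, map_neg, map_pow, map_div₀, map_one, map_zero]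
  have hN : (x ^ 2 + 3 * y ^ 2) ^ 3 = 1 := by
    obtain ⟨τ, hτ⟩ := exists_conj hW
    have hτc : ∀ x : ℚ_[3], τ (algebraMap ℚ_[3] (PadicAlgCl 3) (x)) = (algebraMap ℚ_[3] (PadicAlgCl 3) (x)) := fun x => τ.commutes x
    have h1 := congrArg τ h
    simp only [map_pow, map_mul, map_add, map_div₀, map_neg, map_one, map_ofNat, hτ, hτc] at h1
    have h2 : (((algebraMap ℚ_[3] (PadicAlgCl 3) (x)) + (algebraMap ℚ_[3] (PadicAlgCl 3) (y)) * W) * ((algebraMap ℚ_[3] (PadicAlgCl 3) (x)) + (algebraMap ℚ_[3] (PadicAlgCl 3) (y)) * -W)) ^ 3 = 1 := by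
      rw [mul_pow, h, h1]
      have e1 : ((-1 + W) / 2 : (PadicAlgCl 3)) * ((-1 + -W) / 2) = 1 := by linear_combination (-1 / 4) * hW
      have e2 : ((algebraMap ℚ_[3] (PadicAlgCl 3) (t)) + W) * ((algebraMap ℚ_[3] (PadicAlgCl 3) (t)) + -W) = 1 := by linear_combination htO - hW
      calc ((-1 + W) / 2 : (PadicAlgCl 3)) ^ l * ((algebraMap ℚ_[3] (PadicAlgCl 3) (t)) + W) ^ m * (((-1 + -W) / 2) ^ l * ((algebraMap ℚ_[3] (PadicAlgCl 3) (t)) + -W) ^ m)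
          = (((-1 + W) / 2 : (PadicAlgCl 3)) * ((-1 + -W) / 2)) ^ l * (((algebraMap ℚ_[3] (PadicAlgCl 3) (t)) + W) * ((algebraMap ℚ_[3] (PadicAlgCl 3) (t)) + -W)) ^ m := by
            rw [mul_pow, mul_pow]; ring
        _ = 1 := by rw [e1, e2, one_pow, one_pow, one_mul]
    have h3 : ((algebraMap ℚ_[3] (PadicAlgCl 3) (x)) + (algebraMap ℚ_[3] (PadicAlgCl 3) (y)) * W) * ((algebraMap ℚ_[3] (PadicAlgCl 3) (x)) + (algebraMap ℚ_[3] (PadicAlgCl 3) (y)) * -W) = (algebraMap ℚ_[3] (PadicAlgCl 3) (x ^ 2 + 3 * y ^ 2)) := by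
      simp only [map_add, map_mul, map_sub, map_ofNat, map_neg, map_pow, map_div₀, map_one, map_zero]
      linear_combination (-(algebraMap ℚ_[3] (PadicAlgCl 3) (y)) ^ 2) * hW
    rw [h3, ← map_pow] at h2
    exact (algebraMap ℚ_[3] (PadicAlgCl 3)).injective (by rw [h2, map_one])
  have key : ∀ C D : ℚ_[3], ((-1 + W) / 2 : (PadicAlgCl 3)) ^ l * ((algebraMap ℚ_[3] (PadicAlgCl 3) (t)) + W) ^ m = (algebraMap ℚ_[3] (PadicAlgCl 3) (C)) + (algebraMap ℚ_[3] (PadicAlgCl 3) (D)) * W →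
      ‖D‖ ≤ 1 / 9 := fun C D hCD => cube_shape hW hN (h.trans hCD)
  have hnt := norm_t ht
  have n2i : ‖(1 / 2 : ℚ_[3])‖ = 1 := by rw [norm_div, norm_one, n2, div_one]
  have l1 : ‖1 + t‖ ≤ 1 := add_le norm_one.le hnt.le
  have l2 : ‖1 - t‖ ≤ 1 := sub_le norm_one.le hnt.le
  have l3 : ‖5 + 2 * t‖ ≤ 1 := by
    have e : 5 + 2 * t = (1 + t) + (1 + t) + 3 := by ring
    rw [e]
    exact add_le (add_le l1 l1) (by rw [n3]; norm_num)
  have l4 : ‖5 - 2 * t‖ ≤ 1 := by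
    have e : 5 - 2 * t = (1 - t) + (1 - t) + 3 := by ring
    rw [e]
    exact add_le (add_le l2 l2) (by rw [n3]; norm_num)
  have p1 : ‖1 + t‖ * ‖1 - t‖ = 1 / 3 := by
    rw [← norm_mul, show (1 + t) * (1 - t) = 3 by linear_combination -ht, n3]
  have p2 : ‖5 + 2 * t‖ * ‖5 - 2 * t‖ = 1 / 3 := by
    rw [← norm_mul, show (5 + 2 * t) * (5 - 2 * t) = 3 * (2 + 9) by linear_combination -4 * ht,
      norm_mul, n3, unit_add n2 (by
        rw [show (9 : ℚ_[3]) = 3 * 3 by norm_num, norm_mul, n3]; norm_num), mul_one]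
  have m1 : 1 / 3 ≤ ‖1 + t‖ := by nlinarith [norm_nonneg (1 + t), norm_nonneg (1 - t)]
  have m2 : 1 / 3 ≤ ‖1 - t‖ := by nlinarith [norm_nonneg (1 + t), norm_nonneg (1 - t)]
  have m3 : 1 / 3 ≤ ‖5 + 2 * t‖ := by
    nlinarith [norm_nonneg (5 + 2 * t), norm_nonneg (5 - 2 * t)]
  have m4 : 1 / 3 ≤ ‖5 - 2 * t‖ := by
    nlinarith [norm_nonneg (5 + 2 * t), norm_nonneg (5 - 2 * t)]
  clear h
  interval_cases l <;> interval_cases m
  · exact ⟨rfl, rfl⟩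
  · exfalso
    have := key t 1 (by simp only [map_add, map_mul, map_sub, map_ofNat, map_neg, map_pow, map_div₀, map_one, map_zero]; ring)
    rw [norm_one] at this
    norm_num at this
  · exfalso
    have := key (-5) (2 * t) (by simp only [map_add, map_mul, map_sub, map_ofNat, map_neg, map_pow, map_div₀, map_one, map_zero]; linear_combination htO + hW)
    rw [norm_mul, n2, hnt] at this
    norm_num at this
  · exfalso
    have := key (-1 / 2) (1 / 2) (by simp only [map_add, map_mul, map_sub, map_ofNat, map_neg, map_pow, map_div₀, map_one, map_zero]; ring)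
    rw [n2i] at this
    norm_num at this
  · exfalso
    have := key ((-t - 3) / 2) (1 / 2 * -(1 - t)) (by simp only [map_add, map_mul, map_sub, map_ofNat, map_neg, map_pow, map_div₀, map_one, map_zero]; linear_combination (1 / 2) * hW)
    rw [norm_mul, n2i, norm_neg, one_mul] at this
    linarith
  · exfalso
    have := key ((5 - 6 * t) / 2) (1 / 2 * -(5 + 2 * t)) (by
      simp only [map_add, map_mul, map_sub, map_ofNat, map_neg, map_pow, map_div₀, map_one, map_zero]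
      linear_combination (-1 / 2 + W / 2) * htO + (-1 / 2 + W / 2 + (algebraMap ℚ_[3] (PadicAlgCl 3) (t))) * hW)
    rw [norm_mul, n2i, norm_neg, one_mul] at this
    linarith
  · exfalso
    have := key (-1 / 2) (-(1 / 2)) (by simp only [map_add, map_mul, map_sub, map_ofNat, map_neg, map_pow, map_div₀, map_one, map_zero]; linear_combination (1 / 4) * hW)
    rw [norm_neg, n2i] at this
    norm_num at this
  · exfalso
    have := key ((-t + 3) / 2) (1 / 2 * -(1 + t)) (by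
      simp only [map_add, map_mul, map_sub, map_ofNat, map_neg, map_pow, map_div₀, map_one, map_zero]; linear_combination ((algebraMap ℚ_[3] (PadicAlgCl 3) (t)) / 4 - 1 / 2 + W / 4) * hW)
    rw [norm_mul, n2i, norm_neg, one_mul] at this
    linarith
  · exfalso
    have e1 : ((-1 + W) / 2 : (PadicAlgCl 3)) ^ 2 = (-1 - W) / 2 := by linear_combination (1 / 4) * hW
    have := key ((5 + 6 * t) / 2) (1 / 2 * (5 - 2 * t)) (by
      rw [e1]
      simp only [map_add, map_mul, map_sub, map_ofNat, map_neg, map_pow, map_div₀, map_one, map_zero]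
      linear_combination ((-1 - W) / 2) * htO + (-(algebraMap ℚ_[3] (PadicAlgCl 3) (t)) - 1 / 2 - W / 2) * hW)
    rw [norm_mul, n2i, one_mul] at this
    linarith

theorem s_LO : S_LO := by
  intro t u v W ht hW i j l m h
  have htO : (algebraMap ℚ_[3] (PadicAlgCl 3) (t)) ^ 2 = -2 := by
    rw [← map_pow, ht]
    simp only [map_add, map_mul, map_sub, map_ofNat, map_neg, map_pow, map_div₀, map_one, map_zero]
  obtain ⟨a, hadef⟩ : ∃ a : ℚ_[3], a = 1 + t := ⟨_, rfl⟩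
  obtain ⟨b, hbdef⟩ : ∃ b : ℚ_[3], b = 1 - t := ⟨_, rfl⟩
  have hab : a * b = 3 := by rw [hadef, hbdef]; linear_combination -ht
  have ha0 : a ≠ 0 := by rintro rfl; norm_num at hab
  have hb0 : b ≠ 0 := by rintro rfl; norm_num at hab
  have hca0 : (algebraMap ℚ_[3] (PadicAlgCl 3) (a)) ≠ 0 := (map_ne_zero _).2 ha0
  have hcb0 : (algebraMap ℚ_[3] (PadicAlgCl 3) (b)) ≠ 0 := (map_ne_zero _).2 hb0
  obtain ⟨ω, hω⟩ : ∃ ω : (PadicAlgCl 3), ω = (-1 + W) / 2 := ⟨_, rfl⟩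
  obtain ⟨θ, hθ⟩ : ∃ θ : (PadicAlgCl 3), θ = (algebraMap ℚ_[3] (PadicAlgCl 3) (t)) + W := ⟨_, rfl⟩
  have eω : ω * ((-1 + -W) / 2) = 1 := by rw [hω]; linear_combination (-1 / 4) * hW
  have eθ : θ * ((algebraMap ℚ_[3] (PadicAlgCl 3) (t)) + -W) = 1 := by rw [hθ]; linear_combination htO - hW
  have hω0 : ω ≠ 0 := left_ne_zero_of_mul_eq_one eω
  have hθ0 : θ ≠ 0 := left_ne_zero_of_mul_eq_one eθ
  have iω : ω⁻¹ = (-1 + -W) / 2 := inv_eq_of_mul_eq_one_right eω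
  have iθ : θ⁻¹ = (algebraMap ℚ_[3] (PadicAlgCl 3) (t)) + -W := inv_eq_of_mul_eq_one_right eθ
  have h' : ((algebraMap ℚ_[3] (PadicAlgCl 3) (u)) + (algebraMap ℚ_[3] (PadicAlgCl 3) (v)) * W) ^ 3 = (algebraMap ℚ_[3] (PadicAlgCl 3) (a)) ^ i * (algebraMap ℚ_[3] (PadicAlgCl 3) (b)) ^ j * ω ^ l * θ ^ m := by
    rw [hadef, hbdef, hω, hθ]
    simp only [map_add, map_mul, map_sub, map_ofNat, map_neg, map_pow, map_div₀, map_one, map_zero]
    exact h
  -- the norm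
  have hN : (u ^ 2 + 3 * v ^ 2) ^ 3 = (1 + t) ^ (2 * i) * (1 - t) ^ (2 * j) := by
    obtain ⟨τ, hτ⟩ := exists_conj hW
    have hτc : ∀ x : ℚ_[3], τ (algebraMap ℚ_[3] (PadicAlgCl 3) (x)) = (algebraMap ℚ_[3] (PadicAlgCl 3) (x)) := fun x => τ.commutes x
    have h1 := congrArg τ h'
    have q1 : τ ω = (-1 + -W) / 2 := by
      rw [hω]
      simp only [map_add, map_div₀, map_neg, map_one, map_ofNat, hτ]
    have q2 : τ θ = (algebraMap ℚ_[3] (PadicAlgCl 3) (t)) + -W := by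
      rw [hθ]
      simp only [map_add, hτ, hτc]
    simp only [map_pow, map_mul, map_add, map_zpow₀, hτ, hτc, q1, q2] at h1
    have h2 : (((algebraMap ℚ_[3] (PadicAlgCl 3) (u)) + (algebraMap ℚ_[3] (PadicAlgCl 3) (v)) * W) * ((algebraMap ℚ_[3] (PadicAlgCl 3) (u)) + (algebraMap ℚ_[3] (PadicAlgCl 3) (v)) * -W)) ^ 3 = (algebraMap ℚ_[3] (PadicAlgCl 3) (a)) ^ (2 * i) * (algebraMap ℚ_[3] (PadicAlgCl 3) (b)) ^ (2 * j) := by
      rw [mul_pow, h', h1]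
      calc (algebraMap ℚ_[3] (PadicAlgCl 3) (a)) ^ i * (algebraMap ℚ_[3] (PadicAlgCl 3) (b)) ^ j * ω ^ l * θ ^ m
            * ((algebraMap ℚ_[3] (PadicAlgCl 3) (a)) ^ i * (algebraMap ℚ_[3] (PadicAlgCl 3) (b)) ^ j * ((-1 + -W) / 2) ^ l * ((algebraMap ℚ_[3] (PadicAlgCl 3) (t)) + -W) ^ m)
          = ((algebraMap ℚ_[3] (PadicAlgCl 3) (a)) ^ i * (algebraMap ℚ_[3] (PadicAlgCl 3) (a)) ^ i) * ((algebraMap ℚ_[3] (PadicAlgCl 3) (b)) ^ j * (algebraMap ℚ_[3] (PadicAlgCl 3) (b)) ^ j) * (ω ^ l * ((-1 + -W) / 2) ^ l)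
            * (θ ^ m * ((algebraMap ℚ_[3] (PadicAlgCl 3) (t)) + -W) ^ m) := by ring
        _ = (algebraMap ℚ_[3] (PadicAlgCl 3) (a)) ^ (2 * i) * (algebraMap ℚ_[3] (PadicAlgCl 3) (b)) ^ (2 * j) := by
            rw [← mul_zpow ω, ← mul_zpow θ, eω, eθ, one_zpow, one_zpow, mul_one, mul_one,
              ← zpow_add₀ hca0, ← zpow_add₀ hcb0, two_mul, two_mul]
    have h3 : ((algebraMap ℚ_[3] (PadicAlgCl 3) (u)) + (algebraMap ℚ_[3] (PadicAlgCl 3) (v)) * W) * ((algebraMap ℚ_[3] (PadicAlgCl 3) (u)) + (algebraMap ℚ_[3] (PadicAlgCl 3) (v)) * -W) = (algebraMap ℚ_[3] (PadicAlgCl 3) (u ^ 2 + 3 * v ^ 2)) := by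
      simp only [map_add, map_mul, map_sub, map_ofNat, map_neg, map_pow, map_div₀, map_one, map_zero]
      linear_combination (-(algebraMap ℚ_[3] (PadicAlgCl 3) (v)) ^ 2) * hW
    rw [h3, ← map_pow, ← map_zpow₀, ← map_zpow₀, ← map_mul] at h2
    have h4 := (algebraMap ℚ_[3] (PadicAlgCl 3)).injective h2
    rw [h4, hadef, hbdef]
  obtain ⟨⟨i', hi⟩, ⟨j', hj⟩⟩ := first ht hN
  refine ⟨⟨i', hi⟩, ⟨j', hj⟩, ?_⟩
  -- reduction of the exponents
  obtain ⟨Z, hZ⟩ : ∃ Z : (PadicAlgCl 3), Z = ((algebraMap ℚ_[3] (PadicAlgCl 3) (u)) + (algebraMap ℚ_[3] (PadicAlgCl 3) (v)) * W) * (algebraMap ℚ_[3] (PadicAlgCl 3) (a ^ (-i') * b ^ (-j')))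
    * (ω ^ (-(l / 3)) * θ ^ (-(m / 3))) := ⟨_, rfl⟩
  have hZP : Pq W Z := by
    rw [hZ]
    refine Pq.mul hW (Pq.mul hW ⟨u, v, rfl⟩ ⟨a ^ (-i') * b ^ (-j'), 0, by
      rw [map_zero, zero_mul, add_zero]⟩)
      (Pq.mul hW (Pq.zpow hW ?_ ?_ _) (Pq.zpow hW ?_ ?_ _))
    · exact ⟨-1 / 2, 1 / 2, by rw [hω]; simp only [map_add, map_mul, map_sub, map_ofNat, map_neg, map_pow, map_div₀, map_one, map_zero]; ring⟩
    · exact ⟨-1 / 2, -1 / 2, by rw [iω]; simp only [map_add, map_mul, map_sub, map_ofNat, map_neg, map_pow, map_div₀, map_one, map_zero]; ring⟩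
    · exact ⟨t, 1, by rw [hθ]; simp only [map_add, map_mul, map_sub, map_ofNat, map_neg, map_pow, map_div₀, map_one, map_zero]; ring⟩
    · exact ⟨t, -1, by rw [iθ]; simp only [map_add, map_mul, map_sub, map_ofNat, map_neg, map_pow, map_div₀, map_one, map_zero]; ring⟩
  have hZ3 : Z ^ 3 = ω ^ (l % 3).toNat * θ ^ (m % 3).toNat := by
    have e1 : (((l % 3).toNat : ℕ) : ℤ) = l % 3 := Int.toNat_of_nonneg (Int.emod_nonneg _ (by norm_num))
    have e2 : (((m % 3).toNat : ℕ) : ℤ) = m % 3 := Int.toNat_of_nonneg (Int.emod_nonneg _ (by norm_num))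
    rw [← zpow_natCast ω, ← zpow_natCast θ, e1, e2]
    rw [hZ, mul_pow, mul_pow, h', mul_pow, ← map_pow, mul_pow]
    have p1 : ∀ (x : ℚ_[3]) (n : ℤ), x ≠ 0 → (x ^ (-n)) ^ 3 = x ^ (-(3 * n)) := by
      intro x n hx
      rw [← zpow_natCast, ← zpow_mul]
      congr 1
      push_cast
      ring
    have p2 : ∀ (x : (PadicAlgCl 3)) (n : ℤ), (x ^ (-n)) ^ 3 = x ^ (-(3 * n)) := by
      intro x n
      rw [← zpow_natCast, ← zpow_mul]
      congr 1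
      push_cast
      ring
    rw [p1 a _ ha0, p1 b _ hb0, p2, p2, map_mul, map_zpow₀, map_zpow₀, hi, hj]
    have e3 : (algebraMap ℚ_[3] (PadicAlgCl 3) (a)) ^ (3 * i') * (algebraMap ℚ_[3] (PadicAlgCl 3) (a)) ^ (-(3 * i')) = 1 := by
      rw [← zpow_add₀ hca0, add_neg_cancel, zpow_zero]
    have e4 : (algebraMap ℚ_[3] (PadicAlgCl 3) (b)) ^ (3 * j') * (algebraMap ℚ_[3] (PadicAlgCl 3) (b)) ^ (-(3 * j')) = 1 := by
      rw [← zpow_add₀ hcb0, add_neg_cancel, zpow_zero]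
    have e5 : ω ^ l * ω ^ (-(3 * (l / 3))) = ω ^ (l % 3) := by
      rw [← zpow_add₀ hω0]
      congr 1
      have := Int.emod_add_mul_ediv l 3
      omega
    have e6 : θ ^ m * θ ^ (-(3 * (m / 3))) = θ ^ (m % 3) := by
      rw [← zpow_add₀ hθ0]
      congr 1
      have := Int.emod_add_mul_ediv m 3
      omega
    rw [← e5, ← e6]
    calc (algebraMap ℚ_[3] (PadicAlgCl 3) (a)) ^ (3 * i') * (algebraMap ℚ_[3] (PadicAlgCl 3) (b)) ^ (3 * j') * ω ^ l * θ ^ m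
          * ((algebraMap ℚ_[3] (PadicAlgCl 3) (a)) ^ (-(3 * i')) * (algebraMap ℚ_[3] (PadicAlgCl 3) (b)) ^ (-(3 * j')))
          * (ω ^ (-(3 * (l / 3))) * θ ^ (-(3 * (m / 3))))
        = ((algebraMap ℚ_[3] (PadicAlgCl 3) (a)) ^ (3 * i') * (algebraMap ℚ_[3] (PadicAlgCl 3) (a)) ^ (-(3 * i'))) * ((algebraMap ℚ_[3] (PadicAlgCl 3) (b)) ^ (3 * j') * (algebraMap ℚ_[3] (PadicAlgCl 3) (b)) ^ (-(3 * j')))
          * ((ω ^ l * ω ^ (-(3 * (l / 3)))) * (θ ^ m * θ ^ (-(3 * (m / 3))))) := by ring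
      _ = _ := by rw [e3, e4, one_mul, one_mul]
  obtain ⟨x, y, hxy⟩ := hZP
  rw [hxy, hω, hθ] at hZ3
  have := second ht hW (by omega) (by omega) hZ3
  omega

end Pool.Agent.L7h79.SG.LO
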