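import Pool.Agent.L7h79.SG.E0
import Pool.Agent.L7h79.SG.G1

/-!
# Project SG, job LG: local triviality of two-cocycles implies triviality
-/

set_option autoImplicit false

namespace Pool.Agent.L7h79.SG

open Pool.Agent.L7h48.SG
open Pool.Agent.Y715.Gi (QB KK GK)
open Pool.Agent.Y715.Nr Pool.Agent.W237.RK
open Pool.Agent.Z384 (II DD DDs)

variable {p : ℕ} [hp : Fact p.Prime]

lemma lc_toZModPow (n : ℕ) : IsLocallyConstant fun κ : ℤ_[p] => PadicInt.toZModPow n κ := by
  rw [IsLocallyConstant.iff_eventually_eq]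
  intro κ
  have hp0 : (0 : ℝ) < p := by exact_mod_cast hp.out.pos
  have hpos : (0 : ℝ) < (p : ℝ) ^ (1 - (n : ℤ)) := by positivity
  filter_upwards [Metric.ball_mem_nhds κ hpos] with l hl
  have h1 : l - κ ∈ RingHom.ker (PadicInt.toZModPow (p := p) n) := by
    rw [PadicInt.ker_toZModPow, ← PadicInt.norm_le_pow_iff_mem_span_pow,
      PadicInt.norm_le_pow_iff_norm_lt_pow_add_one]
    rw [Metric.mem_ball, dist_eq_norm] at hl
    convert hl using 2
    ring
  rw [RingHom.mem_ker, map_sub, sub_eq_zero] at h1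
  exact h1

section red

variable {A : Type} [CommRing A] [Algebra ℤ_[p] A] {r : ℕ} (b : Module.Basis (Fin r) ℤ_[p] A)
  (k : ℕ)

/-- reduction of the coordinates -/
noncomputable def red : A →+ (Fin r → ZMod (p ^ k)) where
  toFun a e := PadicInt.toZModPow k (b.repr a e)
  map_zero' := by ext e; simp
  map_add' x y := by ext e; simp

lemma red_smul (c : ℤ_[p]) (a : A) (e : Fin r) :
    red b k (c • a) e = PadicInt.toZModPow k c * red b k a e := by
  show PadicInt.toZModPow k (b.repr (c • a) e) = _ * PadicInt.toZModPow k (b.repr a e)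
  rw [map_smul, Finsupp.smul_apply, smul_eq_mul, map_mul]

include b in
lemma eq_zero_of_red {a : A} (h : ∀ k, red b k a = 0) : a = 0 := by
  apply b.repr.injective
  rw [map_zero]
  ext e
  rw [Finsupp.coe_zero, Pi.zero_apply]
  refine PadicInt.ext_of_toZModPow.1 fun k => ?_
  rw [map_zero]
  exact congrFun (h k) e

end red

variable {s : QB} {ι₀ : QB →ₐ[ℚ] PadicAlgCl p} {𝓛 : Subgroup (GK s)}

/-- the open subgroups on which a cocycle modulo `p ^ k` is invariant -/
lemma exists_inv {A : Type} [CommRing A] [TopologicalSpace A] [Algebra ℤ_[p] A] {r : ℕ}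
    (b : Module.Basis (Fin r) ℤ_[p] A) (hb : ∀ e, Continuous fun a : A => b.repr a e) (k : ℕ)
    {z : GK s → GK s → A} (hz : Continuous (fun v : GK s × GK s => z v.1 v.2)) :
    ∃ W : Subgroup (GK s), IsOpen (W : Set (GK s)) ∧
      (∀ n, n ∈ W ↔ ∀ σ τ, red b k (z σ (τ * n)) = red b k (z σ τ)) := by
  let W : Subgroup (GK s) :=
    { carrier := {n | ∀ σ τ, red b k (z σ (τ * n)) = red b k (z σ τ)}
      mul_mem' := by
        intro x y hx hy σ τ
        rw [← mul_assoc, hy, hx]
      one_mem' := fun σ τ => by rw [mul_one]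
      inv_mem' := by
        intro x hx σ τ
        have h := hx σ (τ * x⁻¹)
        rw [inv_mul_cancel_right] at h
        exact h.symm }
  refine ⟨W, ?_, fun n => Iff.rfl⟩
  refine W.isOpen_of_mem_nhds (g := 1) ?_
  have hlc : IsLocallyConstant (fun v : GK s × GK s => red b k (z v.1 v.2)) := by
    rw [IsLocallyConstant.iff_eventually_eq]
    intro v
    have h1 : ∀ e : Fin r, ∀ᶠ u in nhds v, red b k (z u.1 u.2) e = red b k (z v.1 v.2) e := by
      intro e
      have h2 : IsLocallyConstant (fun u : GK s × GK s => red b k (z u.1 u.2) e) :=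
        (lc_toZModPow k).comp_continuous ((hb e).comp hz)
      exact (IsLocallyConstant.iff_eventually_eq _).1 h2 v
    filter_upwards [Filter.eventually_all.2 h1] with u hu
    exact funext hu
  have h1 : ∀ v : GK s × GK s, ∀ᶠ q : (GK s × GK s) × GK s in nhds (v, 1),
      red b k (z q.1.1 (q.1.2 * q.2)) = red b k (z q.1.1 q.1.2) := by
    intro v
    have c1 : Filter.Tendsto (fun q : (GK s × GK s) × GK s => (q.1.1, q.1.2 * q.2)) (nhds (v, 1))
        (nhds v) := by
      have : Continuous (fun q : (GK s × GK s) × GK s => (q.1.1, q.1.2 * q.2)) := by fun_prop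
      have h2 := this.tendsto (v, 1)
      simpa using h2
    have c2 : Filter.Tendsto (fun q : (GK s × GK s) × GK s => q.1) (nhds (v, 1)) (nhds v) :=
      continuous_fst.tendsto (v, (1 : GK s))
    have h3 := (IsLocallyConstant.iff_eventually_eq _).1 hlc v
    filter_upwards [c1.eventually h3, c2.eventually h3] with q h4 h5
    rw [h4, h5]
  have h2 : ∀ᶠ n in nhds (1 : GK s), ∀ v ∈ (Set.univ : Set (GK s × GK s)),
      red b k (z v.1 (v.2 * n)) = red b k (z v.1 v.2) := by
    refine IsCompact.eventually_forall_of_forall_eventually isCompact_univ ?_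
    intro v _
    have h3 := h1 v
    rw [nhds_prod_eq] at h3 ⊢
    exact (Filter.eventually_swap_iff.1 h3)
  filter_upwards [h2] with n hn σ τ
  exact hn (σ, τ) trivial

/-- The action on a finite set which detects the values of the cochain modulo `p ^ k`. -/
lemma detect (hF1 : S_F1) {d : ℕ} (hS : Spl p s d) (hL : Lev p 𝓛 ι₀)
    {A : Type} [CommRing A] [TopologicalSpace A] [Algebra ℤ_[p] A] {r : ℕ}
    (b : Module.Basis (Fin r) ℤ_[p] A) (hb : ∀ e, Continuous fun a : A => b.repr a e) (k : ℕ)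
    {χ : GK s → ℤ_[p]} (hχ : Continuous χ) (hχ1 : χ 1 = 1) (hχm : ∀ x y, χ (x * y) = χ x * χ y)
    {z : GK s → GK s → A} (hz : Continuous (fun v : GK s × GK s => z v.1 v.2))
    (hzc : ∀ x y w, χ x • z y w - z (x * y) w + z x (y * w) - z x y = 0)
    (hz0 : ∀ y, z 1 y = 0) (hz0' : ∀ x, z x 1 = 0)
    {N : Subgroup (GK s)} (hN : TE p 𝓛 N)
    (hN1 : ∀ n ∈ N, ∀ σ τ, red b k (z σ (τ * n)) = red b k (z σ τ))
    (hN2 : ∀ n ∈ N, PadicInt.toZModPow k (χ n) = 1)
    {f : DDs (s := s) ι₀ → A} (hf : Continuous f)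
    (hfz : ∀ δ δ' : DDs (s := s) ι₀, z δ δ' = f δ + χ δ • f δ' - f (δ * δ')) :
    ∀ δ : DDs (s := s) ι₀, (δ : GK s) ∈ Nf p 𝓛 → red b k (f δ) = 0 := by
  have hNn := hN.normal
  have hfinQ : Finite (GK s ⧸ N) := Subgroup.quotient_finite_of_isOpen N hN.isOpen
  have hf1 : f 1 = 0 := by
    have h := hfz 1 1
    rw [Subgroup.coe_one, hz0, hχ1, one_smul, mul_one, add_sub_cancel_right] at h
    exact h.symm
  let S : Type := (Fin r → ZMod (p ^ k)) × (GK s ⧸ N)
  have hfinS : Finite S := inferInstance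
  obtain ⟨Z, hZ⟩ : ∃ Z : GK s → (GK s ⧸ N) → Fin r → ZMod (p ^ k),
    ∀ σ τ, Z σ (QuotientGroup.mk τ) = red b k (z σ τ) := by
    refine ⟨fun σ g => red b k (z σ g.out), fun σ τ => ?_⟩
    obtain ⟨n, hn⟩ := QuotientGroup.mk_out_eq_mul N τ
    show red b k (z σ (QuotientGroup.mk τ : GK s ⧸ N).out) = _
    rw [hn, hN1 _ n.2]
  let F : DDs (s := s) ι₀ → S → S := fun δ x =>
    (fun e => red b k (f δ) e + PadicInt.toZModPow k (χ δ) * x.1 e - Z δ x.2 e, (δ : GK s) • x.2)
  have hF1' : F 1 = (id : S → S) := by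
    funext x
    obtain ⟨a, g⟩ := x
    obtain ⟨τ, rfl⟩ := QuotientGroup.mk_surjective g
    refine Prod.ext ?_ ?_
    · funext e
      show red b k (f 1) e + PadicInt.toZModPow k (χ ((1 : DDs (s := s) ι₀) : GK s)) * a e
        - Z ((1 : DDs (s := s) ι₀) : GK s) (QuotientGroup.mk τ) e = a e
      rw [Subgroup.coe_one, hZ, hz0, hf1, map_zero, hχ1, map_one]
      simp
    · show ((1 : DDs (s := s) ι₀) : GK s) • (QuotientGroup.mk τ : GK s ⧸ N) = QuotientGroup.mk τ
      rw [Subgroup.coe_one, one_smul]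
  have hFm : ∀ δ δ', F (δ * δ') = F δ ∘ F δ' := by
    intro δ δ'
    funext x
    obtain ⟨a, g⟩ := x
    obtain ⟨τ, rfl⟩ := QuotientGroup.mk_surjective g
    refine Prod.ext ?_ ?_
    · funext e
      show red b k (f (δ * δ')) e + PadicInt.toZModPow k (χ ((δ * δ' : DDs (s := s) ι₀) : GK s)) * a e
        - Z ((δ * δ' : DDs (s := s) ι₀) : GK s) (QuotientGroup.mk τ) e
        = red b k (f δ) e + PadicInt.toZModPow k (χ δ) * (red b k (f δ') e
          + PadicInt.toZModPow k (χ δ') * a e - Z δ' (QuotientGroup.mk τ) e)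
          - Z δ ((δ' : GK s) • (QuotientGroup.mk τ : GK s ⧸ N)) e
      have e1 : (δ' : GK s) • (QuotientGroup.mk τ : GK s ⧸ N) = QuotientGroup.mk ((δ' : GK s) * τ) :=
        rfl
      rw [e1, hZ, hZ, hZ, Subgroup.coe_mul, hχm, map_mul]
      have h1 : f (δ * δ') = f δ + χ δ • f δ' - z δ δ' := by rw [hfz]; abel
      have h2 : z (δ * δ' : GK s) τ = χ δ • z δ' τ + z δ (δ' * τ) - z δ δ' := by
        have h3 := hzc δ δ' τ
        rw [← sub_eq_zero]
        rw [← neg_eq_zero, ← h3]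
        abel
      rw [h1, h2]
      simp only [map_add, map_sub, Pi.add_apply, Pi.sub_apply, red_smul]
      ring
    · show ((δ * δ' : DDs (s := s) ι₀) : GK s) • (QuotientGroup.mk τ : GK s ⧸ N)
        = (δ : GK s) • ((δ' : GK s) • (QuotientGroup.mk τ : GK s ⧸ N))
      rw [Subgroup.coe_mul, mul_smul]
  let R0 : DDs (s := s) ι₀ →* Function.End S :=
    { toFun := F
      map_one' := hF1'
      map_mul' := hFm }
  let R : DDs (s := s) ι₀ →* (Function.End S)ˣ := R0.toHomUnits
  have hR : ∀ δ, ((R δ : (Function.End S)ˣ) : Function.End S) = F δ := fun δ => rfl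
  have hfinE : Finite (Function.End S) := by
    show Finite (S → S)
    infer_instance
  have hlc : IsLocallyConstant (fun δ => R δ) := by
    rw [IsLocallyConstant.iff_eventually_eq]
    intro δ
    have hcoe : Continuous (fun δ : DDs (s := s) ι₀ => (δ : GK s)) := continuous_subtype_val
    have h1 : ∀ x : S, ∀ᶠ ε in nhds δ, F ε x = F δ x := by
      rintro ⟨a, g⟩
      obtain ⟨τ, rfl⟩ := QuotientGroup.mk_surjective g
      have c1 : ∀ e : Fin r, ∀ᶠ ε : DDs (s := s) ι₀ in nhds δ, red b k (f ε) e = red b k (f δ) e := by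
        intro e
        have h2 : IsLocallyConstant (fun ε : DDs (s := s) ι₀ => red b k (f ε) e) :=
          (lc_toZModPow k).comp_continuous ((hb e).comp hf)
        exact (IsLocallyConstant.iff_eventually_eq _).1 h2 δ
      have c2 : ∀ᶠ ε : DDs (s := s) ι₀ in nhds δ, PadicInt.toZModPow k (χ (ε : GK s))
          = PadicInt.toZModPow k (χ (δ : GK s)) := by
        have h2 : IsLocallyConstant (fun ε : DDs (s := s) ι₀ => PadicInt.toZModPow k (χ (ε : GK s))) :=
          (lc_toZModPow k).comp_continuous (hχ.comp hcoe)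
        exact (IsLocallyConstant.iff_eventually_eq _).1 h2 δ
      have c3 : ∀ e : Fin r, ∀ᶠ ε : DDs (s := s) ι₀ in nhds δ, red b k (z (ε : GK s) τ) e
          = red b k (z (δ : GK s) τ) e := by
        intro e
        have h3 : Continuous (fun ε : DDs (s := s) ι₀ => z (ε : GK s) τ) :=
          hz.comp (hcoe.prodMk continuous_const)
        have h2 : IsLocallyConstant (fun ε : DDs (s := s) ι₀ => red b k (z (ε : GK s) τ) e) :=
          (lc_toZModPow k).comp_continuous ((hb e).comp h3)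
        exact (IsLocallyConstant.iff_eventually_eq _).1 h2 δ
      have c4 : ∀ᶠ ε : DDs (s := s) ι₀ in nhds δ,
          ((ε : GK s) * τ)⁻¹ * ((δ : GK s) * τ) ∈ N := by
        have h3 : Continuous (fun ε : DDs (s := s) ι₀ => ((ε : GK s) * τ)⁻¹ * ((δ : GK s) * τ)) :=
          ((hcoe.mul continuous_const).inv).mul continuous_const
        refine h3.continuousAt.eventually (hN.isOpen.mem_nhds ?_)
        show ((δ : GK s) * τ)⁻¹ * ((δ : GK s) * τ) ∈ N
        rw [inv_mul_cancel]
        exact one_mem N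
      filter_upwards [Filter.eventually_all.2 c1, c2, Filter.eventually_all.2 c3, c4] with
        ε d1 d2 d3 d4
      refine Prod.ext ?_ ?_
      · funext e
        show red b k (f ε) e + PadicInt.toZModPow k (χ (ε : GK s)) * a e
          - Z (ε : GK s) (QuotientGroup.mk τ) e = red b k (f δ) e
          + PadicInt.toZModPow k (χ (δ : GK s)) * a e - Z (δ : GK s) (QuotientGroup.mk τ) e
        rw [hZ, hZ, d1 e, d2, d3 e]
      · show (QuotientGroup.mk ((ε : GK s) * τ) : GK s ⧸ N) = QuotientGroup.mk ((δ : GK s) * τ)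
        exact QuotientGroup.eq.2 d4
    filter_upwards [Filter.eventually_all.2 h1] with ε hε
    refine Units.ext ?_
    rw [hR, hR]
    exact funext hε
  have hpg : ∀ δ : DDs (s := s) ι₀, (δ : GK s) ∈ 𝓛 → ∃ j : ℕ, R δ ^ p ^ j = 1 := by
    intro δ hδ
    obtain ⟨a, ha⟩ := te_pow hN
    refine ⟨a + k, ?_⟩
    obtain ⟨ε, hε⟩ : ∃ ε : DDs (s := s) ι₀, ε = δ ^ p ^ a := ⟨_, rfl⟩
    have hεN : (ε : GK s) ∈ N := by
      rw [hε, Subgroup.coe_pow]
      exact ha _ hδ
    rw [pow_add, pow_mul, ← map_pow, ← hε]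
    have hit : ∀ (m : ℕ) (x : S), (F ε)^[m] x
        = (fun e => x.1 e + m * (red b k (f ε) e - Z ε x.2 e), x.2) := by
      intro m
      induction m with
      | zero =>
        intro x
        simp
      | succ m ih =>
        intro x
        rw [Function.iterate_succ_apply', ih]
        obtain ⟨a', g⟩ := x
        obtain ⟨τ, rfl⟩ := QuotientGroup.mk_surjective g
        refine Prod.ext ?_ ?_
        · funext e
          show red b k (f ε) e + PadicInt.toZModPow k (χ ε) * (a' e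
            + m * (red b k (f ε) e - Z ε (QuotientGroup.mk τ) e)) - Z ε (QuotientGroup.mk τ) e
            = a' e + ((m + 1 : ℕ) : ZMod (p ^ k)) * (red b k (f ε) e - Z ε (QuotientGroup.mk τ) e)
          rw [hN2 _ hεN]
          push_cast
          ring
        · show (QuotientGroup.mk ((ε : GK s) * τ) : GK s ⧸ N) = QuotientGroup.mk τ
          refine QuotientGroup.eq.2 ?_
          have h1 := hNn.conj_mem _ (N.inv_mem hεN) τ⁻¹
          rw [inv_inv] at h1
          rw [mul_inv_rev]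
          exact h1
    refine Units.ext ?_
    rw [Units.val_pow_eq_pow_val, Units.val_one]
    have h2 : ∀ m : ℕ, (((R ε : (Function.End S)ˣ) : Function.End S) ^ m : Function.End S)
        = ((F ε)^[m] : S → S) := by
      intro m
      induction m with
      | zero =>
        rw [pow_zero]
        rfl
      | succ m ih =>
        rw [pow_succ, ih]
        rfl
    rw [h2]
    show ((F ε)^[p ^ k] : S → S) = id
    funext x
    rw [hit]
    refine Prod.ext ?_ rfl
    funext e
    show x.1 e + ((p ^ k : ℕ) : ZMod (p ^ k)) * (red b k (f ε) e - Z ε x.2 e) = x.1 e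
    rw [ZMod.natCast_self, zero_mul, add_zero]
  intro δ hδ
  have h1 := hF1 p s d hS ι₀ 𝓛 hL (Function.End S)ˣ R hlc hpg δ hδ
  have h2 : F δ ((0 : Fin r → ZMod (p ^ k)), QuotientGroup.mk 1)
      = ((0 : Fin r → ZMod (p ^ k)), QuotientGroup.mk 1) := by
    have h3 := congrArg (fun u : (Function.End S)ˣ => (u : Function.End S)) h1
    simp only [hR] at h3
    rw [h3]
    rfl
  have h3 := congrArg Prod.fst h2
  funext e
  have h4 := congrFun h3 e
  have h5 : red b k (f δ) e + PadicInt.toZModPow k (χ δ) * (0 : ZMod (p ^ k))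
    - Z δ (QuotientGroup.mk 1) e = 0 := h4
  rw [hZ, hz0', map_zero, mul_zero, add_zero, Pi.zero_apply, sub_zero] at h5
  exact h5

theorem s_LG (hE0 : S_E0) (hF1 : S_F1) (hG1 : S_G1) : S_LG := by
  intro p hp s d hS ι₀ 𝓛 hL A _ _ _ _ _ r b hb hcont χ hχ z hz hz1 hz2 hzc hz11 hex
  obtain ⟨f, hf, hfz⟩ := hex
  obtain ⟨hCh, hG⟩ := hG1 p s χ hχ
  obtain ⟨-, hχN⟩ := hG ι₀ 𝓛 hL
  obtain ⟨hχc, hχ1, hχm⟩ := hCh
  obtain ⟨hcomp, -, hNL, -, -, -, -, -, hTE, -, -, hdens⟩ := hE0 p s d hS ι₀ 𝓛 hL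
  have hz0 : ∀ y, z 1 y = 0 := by
    intro y
    have h := hzc 1 1 y
    rw [hχ1, one_smul, one_mul, one_mul, hz11, sub_zero, sub_self, zero_add] at h
    exact h
  have hz0' : ∀ x, z x 1 = 0 := by
    intro x
    have h := hzc x 1 1
    rw [hz11, smul_zero, mul_one, mul_one] at h
    have h2 : - z x 1 = 0 := by rw [← h]; abel
    exact neg_eq_zero.1 h2
  have hfN : ∀ n : DDs (s := s) ι₀, (n : GK s) ∈ Nf p 𝓛 → f n = 0 := by
    intro n hn
    refine eq_zero_of_red b fun k => ?_
    obtain ⟨W, hWo, hW⟩ := exists_inv b hb k hz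
    let V : Subgroup (GK s) :=
      { carrier := {n | PadicInt.toZModPow k (χ n) = 1}
        mul_mem' := by
          intro x y hx hy
          show PadicInt.toZModPow k (χ (x * y)) = 1
          rw [hχm, map_mul, show PadicInt.toZModPow k (χ x) = 1 from hx,
            show PadicInt.toZModPow k (χ y) = 1 from hy, one_mul]
        one_mem' := by
          show PadicInt.toZModPow k (χ 1) = 1
          rw [hχ1, map_one]
        inv_mem' := by
          intro x hx
          show PadicInt.toZModPow k (χ x⁻¹) = 1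
          have h1 := hχm x x⁻¹
          rw [mul_inv_cancel, hχ1] at h1
          have h2 := congrArg (PadicInt.toZModPow k) h1
          rw [map_one, map_mul, show PadicInt.toZModPow k (χ x) = 1 from hx, one_mul] at h2
          exact h2.symm }
    have hVo : IsOpen (V : Set (GK s)) := by
      have h2 : IsLocallyConstant (fun σ : GK s => PadicInt.toZModPow k (χ σ)) :=
        (lc_toZModPow k).comp_continuous hχc
      exact h2.isOpen_fiber 1
    obtain ⟨N, hN, hNW⟩ := hTE (W ⊓ V) (hWo.inter hVo) (fun x hx => by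
      refine ⟨(hW x).2 (fun σ τ => ?_), ?_⟩
      · rw [hz2 σ τ x hx]
      · show PadicInt.toZModPow k (χ x) = 1
        rw [hχN x hx, map_one])
    exact detect hF1 hS hL b hb k hχc hχ1 hχm hz hzc hz0 hz0' hN
      (fun n hn => (hW n).1 (hNW hn).1) (fun n hn => (hNW hn).2) hf hfz n hn
  have hfinv : ∀ δ δ' : DDs (s := s) ι₀, (δ : GK s)⁻¹ * δ' ∈ Nf p 𝓛 → f δ = f δ' := by
    intro δ δ' h
    have h1 := hfz δ (δ⁻¹ * δ')
    rw [mul_inv_cancel_left, hfN (δ⁻¹ * δ') (by rw [Subgroup.coe_mul, Subgroup.coe_inv]; exact h),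
      smul_zero, add_zero] at h1
    have h2 : z (δ : GK s) ((δ⁻¹ * δ' : DDs (s := s) ι₀) : GK s) = 0 := by
      have h3 := hz2 (δ : GK s) 1 _ h
      rw [one_mul, hz0'] at h3
      rw [Subgroup.coe_mul, Subgroup.coe_inv]
      exact h3
    rw [h2] at h1
    exact (sub_eq_zero.1 h1.symm)
  choose D hD hDN using hdens
  obtain ⟨F, hF⟩ : ∃ F : GK s → A, F = fun σ => f ⟨D σ, hD σ⟩ := ⟨_, rfl⟩
  have hFval : ∀ (σ : GK s) (δ : DDs (s := s) ι₀), (δ : GK s)⁻¹ * σ ∈ Nf p 𝓛 → F σ = f δ := by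
    intro σ δ h
    rw [hF]
    refine hfinv _ _ ?_
    show (D σ)⁻¹ * (δ : GK s) ∈ Nf p 𝓛
    have e : (D σ)⁻¹ * (δ : GK s) = ((D σ)⁻¹ * σ) * ((δ : GK s)⁻¹ * σ)⁻¹ := by group
    rw [e]
    exact mul_mem (hDN σ) (inv_mem h)
  refine ⟨F, ?_, ?_⟩
  · -- continuity
    obtain ⟨ρ, hρ, -, hρr⟩ := s_E1 p s d hS ι₀
    have hDc : IsCompact ((DDs ι₀ : Subgroup (GK s)) : Set (GK s)) := by
      rw [← hρr, MonoidHom.coe_range]
      exact isCompact_range hρ
    have hcD : CompactSpace (DDs (s := s) ι₀) := isCompact_iff_compactSpace.1 hDc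
    have hcN : CompactSpace (Nf p 𝓛) := isCompact_iff_compactSpace.1 (isClosed_Nf.isCompact)
    let q : DDs (s := s) ι₀ × Nf p 𝓛 → GK s := fun v => (v.1 : GK s) * (v.2 : GK s)
    have hq : Continuous q := (continuous_subtype_val.comp continuous_fst).mul
      (continuous_subtype_val.comp continuous_snd)
    have hqs : Function.Surjective q := by
      intro σ
      refine ⟨(⟨D σ, hD σ⟩, ⟨(D σ)⁻¹ * σ, hDN σ⟩), ?_⟩
      show D σ * ((D σ)⁻¹ * σ) = σ
      group
    have hqq : Topology.IsQuotientMap q := (hq.isClosedMap).isQuotientMap hq hqs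
    rw [hqq.continuous_iff]
    have e : F ∘ q = fun v => f v.1 := by
      funext v
      refine hFval _ v.1 ?_
      show (v.1 : GK s)⁻¹ * ((v.1 : GK s) * (v.2 : GK s)) ∈ Nf p 𝓛
      rw [inv_mul_cancel_left]
      exact v.2.2
    rw [e]
    exact hf.comp continuous_fst
  · intro x y
    obtain ⟨δ, hδ⟩ : ∃ δ : DDs (s := s) ι₀, (δ : GK s)⁻¹ * x ∈ Nf p 𝓛 := ⟨⟨D x, hD x⟩, hDN x⟩
    obtain ⟨δ', hδ'⟩ : ∃ δ' : DDs (s := s) ι₀, (δ' : GK s)⁻¹ * y ∈ Nf p 𝓛 :=
      ⟨⟨D y, hD y⟩, hDN y⟩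
    have hx : x = δ * ((δ : GK s)⁻¹ * x) := by group
    have hy : y = δ' * ((δ' : GK s)⁻¹ * y) := by group
    have h1 : z x y = z δ δ' := by
      rw [hx, hz1 _ _ _ hδ, hy, hz2 _ _ _ hδ']
    have h2 : χ x = χ δ := by
      rw [hx, hχm, hχN _ hδ, mul_one]
    have h3 : F (x * y) = f (δ * δ') := by
      refine hFval _ _ ?_
      rw [Subgroup.coe_mul]
      have e : ((δ : GK s) * (δ' : GK s))⁻¹ * (x * y)
          = ((δ' : GK s)⁻¹ * ((δ : GK s)⁻¹ * x) * ((δ' : GK s)⁻¹)⁻¹) * ((δ' : GK s)⁻¹ * y) := by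
        group
      rw [e]
      exact mul_mem ((normal_Nf p 𝓛).conj_mem _ hδ _) hδ'
    rw [h1, hFval x δ hδ, hFval y δ' hδ', h2, h3]
    exact hfz δ δ'

end Pool.Agent.L7h79.SG
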