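import Pool.Agent.L7h48.SG.Stm2
import Pool.Agent.L7h79.SG.D3

/-!
# Project SG, job PL: places of `ℚ(θ)`
-/

set_option autoImplicit false

namespace Pool.Agent.L7h79.SG.Pl

open Pool.Agent.L7h48.SG Pool.Agent.L7h79.SG
open Pool.Agent.Y715.Gi (QB KK GK)

variable {a b : ℤ}

/-- the conjugate -/
def cj (z : QR a b) : QR a b := ⟨z.re + b * z.im, -z.im⟩

/-- the norm -/
def nm (z : QR a b) : ℤ := z.re ^ 2 + b * z.re * z.im - a * z.im ^ 2

lemma mul_cj (z : QR a b) : z * cj z = ((nm z : ℤ) : QR a b) := by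
  ext
  · rw [QuadraticAlgebra.re_mul, QuadraticAlgebra.re_intCast, Int.cast_id, cj, nm]
    ring
  · rw [QuadraticAlgebra.im_mul, QuadraticAlgebra.im_intCast, cj]
    ring

lemma nm_mul (z w : QR a b) : nm (z * w) = nm z * nm w := by
  simp only [nm, QuadraticAlgebra.re_mul, QuadraticAlgebra.im_mul]
  ring

lemma nm_int (n : ℤ) : nm (n : QR a b) = n ^ 2 := by
  simp [nm]

lemma nm_nat (n : ℕ) : nm (n : QR a b) = n ^ 2 := by
  simp [nm]

lemma unit_of_nm {z : QR a b} (h : nm z = 1 ∨ nm z = -1) : IsUnit z := by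
  have h1 := mul_cj z
  rcases h with h | h
  · rw [h, Int.cast_one] at h1
    exact IsUnit.of_mul_eq_one _ h1
  · rw [h] at h1
    refine IsUnit.of_mul_eq_one (-cj z) ?_
    rw [mul_neg, h1]
    simp

lemma mon (a b : ℤ) : (Polynomial.X ^ 2 - (Polynomial.C b * Polynomial.X + Polynomial.C a) :
    Polynomial ℤ).Monic := by
  have h : (Polynomial.X ^ 2 - (Polynomial.C b * Polynomial.X + Polynomial.C a) : Polynomial ℤ)
     = Polynomial.X ^ 2 + Polynomial.C (-b) * Polynomial.X + Polynomial.C (-a) := by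
    simp; ring
  rw [h]
  monicity!

section val

variable {θ : QB} (hθ : θ ^ 2 = a + b * θ)

include hθ

lemma vl_mul (z w : QR a b) : vl θ (z * w) = vl θ z * vl θ w := by
  simp only [vl, QuadraticAlgebra.re_mul, QuadraticAlgebra.im_mul]
  push_cast
  linear_combination (-(z.im : QB) * w.im) * hθ

omit hθ in
lemma vl_add (z w : QR a b) : vl θ (z + w) = vl θ z + vl θ w := by
  simp only [vl, QuadraticAlgebra.re_add, QuadraticAlgebra.im_add]
  push_cast
  ring

omit hθ in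
lemma vl_one : vl θ (1 : QR a b) = 1 := by
  simp [vl, QuadraticAlgebra.re_one, QuadraticAlgebra.im_one]

omit hθ in
lemma vl_nat (n : ℕ) : vl θ (n : QR a b) = n := by
  simp [vl]

lemma vl_int (z : QR a b) : IsIntegral ℤ (vl θ z) := by
  have h1 : IsIntegral ℤ θ := by
    refine ⟨Polynomial.X ^ 2 - (Polynomial.C b * Polynomial.X + Polynomial.C a), mon a b, ?_⟩
    rw [Polynomial.eval₂_sub, Polynomial.eval₂_add, Polynomial.eval₂_mul,
        Polynomial.eval₂_pow, Polynomial.eval₂_X, Polynomial.eval₂_C, Polynomial.eval₂_C]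
    rw [eq_intCast, eq_intCast]
    linear_combination hθ
  have h2 : ∀ n : ℤ, IsIntegral ℤ (n : QB) := fun n => by
    have h := isIntegral_algebraMap (R := ℤ) (A := QB) (x := n)
    rwa [eq_intCast] at h
  exact (h2 _).add ((h2 _).mul h1)

variable {q : ℕ} [hq : Fact q.Prime] (ι : QB →ₐ[ℚ] PadicAlgCl q)

lemma nle (z : QR a b) : ‖ι (vl θ z)‖ ≤ 1 := by
  refine norm_le_of_int ?_
  exact (vl_int hθ z).map (ι : QB →+* PadicAlgCl q).toIntAlgHom

lemma nunit {z : QR a b} (hz : IsUnit z) : ‖ι (vl θ z)‖ = 1 := by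
  obtain ⟨w, hw⟩ := hz.exists_right_inv
  have h1 : ‖ι (vl θ z)‖ * ‖ι (vl θ w)‖ = 1 := by
    rw [← norm_mul, ← map_mul, ← vl_mul hθ, hw, vl_one, map_one, norm_one]
  have h2 := nle hθ ι z
  have h3 := nle hθ ι w
  have h4 := norm_nonneg (ι (vl θ z))
  have h5 := norm_nonneg (ι (vl θ w))
  nlinarith

/-- the elements prime to `π` -/
lemma cop [IsDomain (QR a b)] [IsPrincipalIdealRing (QR a b)] {π : QR a b} (hπ : Prime π)
    (h : ‖ι (vl θ π)‖ < 1) {y : QR a b} (hy : ¬ π ∣ y) : ‖ι (vl θ y)‖ = 1 := by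
  have h1 : IsCoprime π y := (hπ.irreducible.coprime_iff_not_dvd).2 hy
  obtain ⟨α, β, hαβ⟩ := h1
  refine le_antisymm (nle hθ ι y) ?_
  have h2 : ι (vl θ α) * ι (vl θ π) + ι (vl θ β) * ι (vl θ y) = 1 := by
    rw [← map_mul, ← map_mul, ← map_add, ← vl_mul hθ, ← vl_mul hθ, ← vl_add, hαβ, vl_one, map_one]
  have h3 : ‖ι (vl θ α) * ι (vl θ π)‖ < 1 := by
    rw [norm_mul]
    have := nle hθ ι α
    have := norm_nonneg (ι (vl θ π))
    nlinarith
  have h4 : ‖ι (vl θ β) * ι (vl θ y)‖ ≤ ‖ι (vl θ y)‖ := by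
    rw [norm_mul]
    have := nle hθ ι β
    have := norm_nonneg (ι (vl θ y))
    nlinarith
  by_contra h5
  push Not at h5
  have h6 := IsUltrametricDist.norm_add_le_max (ι (vl θ α) * ι (vl θ π))
    (ι (vl θ β) * ι (vl θ y))
  rw [h2, norm_one] at h6
  have h7 := max_lt h3 (lt_of_le_of_lt h4 h5)
  linarith

end val

/-- a prime element which divides a nonzero integer divides a prime number -/
lemma exists_q {π : QR a b} (hπ : Prime π) : ∀ n : ℕ, n ≠ 0 → π ∣ (n : QR a b) →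
    ∃ q : ℕ, q.Prime ∧ π ∣ (q : QR a b) := by
  intro n
  induction n using Nat.strong_induction_on with
  | _ n ih =>
    intro hn h
    rcases eq_or_ne n 1 with rfl | h1
    · rw [Nat.cast_one] at h
      exact absurd (isUnit_of_dvd_one h) hπ.not_isUnit
    · have hp := Nat.minFac_prime h1
      obtain ⟨m, hm⟩ := Nat.minFac_dvd n
      have hm0 : m ≠ 0 := by
        rintro rfl
        rw [mul_zero] at hm
        exact hn hm
      rw [hm, Nat.cast_mul] at h
      rcases hπ.dvd_or_dvd h with h2 | h2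
      · exact ⟨_, hp, h2⟩
      · refine ih m ?_ hm0 h2
        rw [hm]
        exact lt_mul_of_one_lt_left (Nat.pos_of_ne_zero hm0) hp.one_lt

theorem s_PL : S_PL := by
  intro a b hdom hpid θ g hθ hg hinj π hπ h3
  have hcj : ∀ z : QR a b, g (vl θ z) = vl θ (cj z) := by
    intro z
    simp only [vl, cj, map_add, map_mul, map_intCast, hg]
    push_cast
    ring
  have hnm0 : nm π ≠ 0 := by
    intro h
    have h1 := mul_cj π
    rw [h, Int.cast_zero] at h1
    rcases mul_eq_zero.1 h1 with h2 | h2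
    · exact hπ.ne_zero h2
    · apply hπ.ne_zero
      have h4 : π.im = 0 := by
        have := congrArg QuadraticAlgebra.im h2
        simpa [cj] using this
      have h5 : π.re = 0 := by
        have := congrArg QuadraticAlgebra.re h2
        simpa [cj, h4] using this
      ext
      · simpa using h5
      · simpa using h4
  obtain ⟨q, hq, hπq⟩ : ∃ q : ℕ, q.Prime ∧ π ∣ (q : QR a b) := by
    refine exists_q hπ (nm π).natAbs (Int.natAbs_ne_zero.2 hnm0) ?_
    have h1 : π ∣ ((nm π : ℤ) : QR a b) := ⟨_, (mul_cj π).symm⟩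
    rcases Int.natAbs_eq (nm π) with h | h
    · have e : (((nm π).natAbs : ℕ) : QR a b) = ((nm π : ℤ) : QR a b) := by
        conv_rhs => rw [h]
        rw [Int.cast_natCast]
      rw [e]
      exact h1
    · have e : (((nm π).natAbs : ℕ) : QR a b) = -((nm π : ℤ) : QR a b) := by
        conv_rhs => rw [h]
        rw [Int.cast_neg, Int.cast_natCast, neg_neg]
      rw [e]
      exact (dvd_neg).2 h1
  have : Fact q.Prime := ⟨hq⟩
  have hq3 : q ≠ 3 := by
    rintro rfl
    exact h3 (by exact_mod_cast hπq)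
  obtain ⟨c, hc⟩ := hπq
  have hN : nm π * nm c = (q : ℤ) ^ 2 := by
    rw [← nm_mul, ← hc, nm_nat]
  have hnu : ¬ (nm π = 1 ∨ nm π = -1) := fun h => hπ.not_isUnit (unit_of_nm h)
  have hdv : (nm π).natAbs ∣ q ^ 2 := by
    have h1 : nm π ∣ (q : ℤ) ^ 2 := ⟨_, hN.symm⟩
    have h2 := Int.natAbs_dvd_natAbs.2 h1
    rwa [Int.natAbs_pow, Int.natAbs_natCast] at h2
  obtain ⟨k, hk, hk'⟩ := (Nat.dvd_prime_pow hq).1 hdv
  have hqn : ∀ ι : QB →ₐ[ℚ] PadicAlgCl q, ‖ι ((q : ℕ) : QB)‖ = (q : ℝ)⁻¹ := by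
    intro ι
    rw [map_natCast]
    have h1 : ((q : ℕ) : PadicAlgCl q) = ((q : ℚ_[q]) : PadicAlgCl q) := by
      rw [map_natCast]
    rw [h1, PadicAlgCl.norm_extends]
    exact Padic.norm_p
  have hq1 : (1 : ℝ) < q := by exact_mod_cast hq.one_lt
  have hq0 : (0 : ℝ) < q := by linarith
  have hqinv : (q : ℝ)⁻¹ < 1 := inv_lt_one_of_one_lt₀ hq1
  have e2 : ((q : ℝ)⁻¹) ^ 2 = (q : ℝ) ^ (-2 : ℤ) := by
    rw [zpow_neg, inv_pow]
    norm_cast
  let ι₁ : QB →ₐ[ℚ] PadicAlgCl q := IsAlgClosed.lift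
  interval_cases k
  · exfalso
    rw [pow_zero] at hk'
    exact hnu (Int.natAbs_eq_iff.1 hk')
  · -- `N π = ± q`
    rw [pow_one] at hk'
    have hπc : ∀ ι : QB →ₐ[ℚ] PadicAlgCl q, ‖ι (vl θ π)‖ * ‖ι (vl θ (cj π))‖ = (q : ℝ)⁻¹ := by
      intro ι
      rw [← norm_mul, ← map_mul, ← vl_mul hθ, mul_cj]
      rcases Int.natAbs_eq (nm π) with h | h
      · rw [h, hk', Int.cast_natCast, vl_nat]
        exact hqn ι
      · rw [h, hk']
        have e : vl θ (((-(q : ℤ)) : ℤ) : QR a b) = -((q : ℕ) : QB) := by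
          simp [vl]
        rw [e, map_neg, norm_neg]
        exact hqn ι
    obtain ⟨ι, hι⟩ : ∃ ι : QB →ₐ[ℚ] PadicAlgCl q, ‖ι (vl θ π)‖ < 1 := by
      by_cases h1 : ‖ι₁ (vl θ π)‖ < 1
      · exact ⟨ι₁, h1⟩
      · have h2 : ‖ι₁ (vl θ π)‖ = 1 := le_antisymm (nle hθ ι₁ π) (not_lt.1 h1)
        refine ⟨ι₁.comp (g : QB →ₐ[ℚ] QB), ?_⟩
        have h4 : (ι₁.comp (g : QB →ₐ[ℚ] QB)) (vl θ π) = ι₁ (vl θ (cj π)) := by
          rw [← hcj]
          rfl
        rw [h4]
        have h5 := hπc ι₁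
        rw [h2, one_mul] at h5
        rw [h5]
        exact hqinv
    refine ⟨q, ⟨hq⟩, ι, hq3, hι, fun y hy => cop hθ ι hπ hι hy, ?_⟩
    have h5 := hπc ι
    by_cases h6 : π ∣ cj π
    · left
      obtain ⟨e, he⟩ := h6
      have h7 : nm (cj π) = nm π := by
        simp only [nm, cj]
        ring
      have h8 : nm e = 1 := by
        have h9 := nm_mul π e
        rw [← he, h7] at h9
        have : nm π * (nm e - 1) = 0 := by linear_combination -h9
        rcases mul_eq_zero.1 this with h10 | h10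
        · exact absurd h10 hnm0
        · linear_combination h10
      have h9 := nunit hθ ι (unit_of_nm (Or.inl h8))
      rw [he, vl_mul hθ, map_mul, norm_mul, h9, mul_one, ← pow_two] at h5
      rw [h5, zpow_neg, zpow_one]
    · right
      have h7 := cop hθ ι hπ hι h6
      rw [h7, mul_one] at h5
      rw [h5, e2]
  · -- `N π = ± q ^ 2`
    have hcu : IsUnit c := by
      refine unit_of_nm ?_
      have h1 : (nm c).natAbs = 1 := by
        have h2 := congrArg Int.natAbs hN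
        rw [Int.natAbs_mul, hk', Int.natAbs_pow, Int.natAbs_natCast] at h2
        have h4 : 0 < q ^ 2 := pow_pos hq.pos 2
        exact Nat.eq_of_mul_eq_mul_left h4 (by rw [h2, mul_one])
      exact Int.natAbs_eq_iff.1 h1
    have h5 : ∀ ι : QB →ₐ[ℚ] PadicAlgCl q, ‖ι (vl θ π)‖ = (q : ℝ)⁻¹ := by
      intro ι
      have h6 := nunit hθ ι hcu
      have h7 := hqn ι
      rw [← vl_nat (a := a) (b := b) (θ := θ), hc, vl_mul hθ, map_mul, norm_mul, h6, mul_one] at h7
      exact h7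
    have h8 : ‖ι₁ (vl θ π)‖ < 1 := by rw [h5]; exact hqinv
    refine ⟨q, ⟨hq⟩, ι₁, hq3, h8, fun y hy => cop hθ ι₁ hπ h8 hy, ?_⟩
    right
    rw [h5, e2]

end Pool.Agent.L7h79.SG.Pl
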